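import Pool.Agent.helper77.PV.Defs

/-!
# Project pv (MP_376aaf_an), block H: Cantor minimal systems. Definitions

Dense torsion free groups `H → Aff(K)`, Shen refinements, towers, the space of the towers, the
dimension homomorphism `C(Ω, ℤ) → H`, invariant states.
-/

set_option autoImplicit false

open Finset

namespace Pool.Agent.PVH

open Pool.Agent.PV Pool.Agent.CZ

/-! ## The ordered group -/

/-- a simple ordered group with strict interpolation, given by its strictly positive elements: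
`P x` means `x ≫ 0`; `g` is the unit -/
structure SOG {H : Type} [AddCommGroup H] (P : H → Prop) (g : H) : Prop where
  add : ∀ x y, P x → P y → P (x + y)
  zero : ¬ P 0
  unperf : ∀ (n : ℕ) (x : H), 1 ≤ n → P (n • x) → P x
  tf : ∀ (n : ℕ) (x : H), 1 ≤ n → n • x = 0 → x = 0
  unit : P g
  arch : ∀ x y : H, P x → ∃ n : ℕ, 1 ≤ n ∧ P (n • x - y)
  intp : ∀ a₁ a₂ b₁ b₂ : H, P (b₁ - a₁) → P (b₁ - a₂) → P (b₂ - a₁) → P (b₂ - a₂) →
    ∃ c, P (c - a₁) ∧ P (c - a₂) ∧ P (b₁ - c) ∧ P (b₂ - c)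
  div : ∀ (n : ℕ) (x e : H), 1 ≤ n → P e → ∃ u, P (x - n • u) ∧ P (e - (x - n • u))

namespace SOG

variable {H : Type} [AddCommGroup H] {P : H → Prop} {g : H}

theorem nsmul (hS : SOG P g) (n : ℕ) (x : H) (hn : 1 ≤ n) (hx : P x) : P (n • x) := by
  induction n with
  | zero => omega
  | succ n ih =>
    rcases Nat.eq_zero_or_pos n with h | h
    · subst h; simpa using hx
    · rw [succ_nsmul]
      exact hS.add _ _ (ih h) hx

/-- a sum of strictly positive elements over a nonempty finite set is strictly positive -/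
theorem sum (hS : SOG P g) {ι : Type} (s : Finset ι) (hs : s.Nonempty) (y : ι → H)
    (hy : ∀ i ∈ s, P (y i)) : P (∑ i ∈ s, y i) := by
  classical
  induction hs using Finset.Nonempty.cons_induction with
  | singleton a => simpa using hy a (by simp)
  | cons a s ha hs ih =>
    rw [Finset.sum_cons]
    exact hS.add _ _ (hy a (by simp)) (ih fun i hi => hy i (by simp [hi]))

/-- a sum of strictly positive elements with natural coefficients, not all zero, is strictly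
positive -/
theorem sum_nsmul (hS : SOG P g) {ι : Type} (s : Finset ι) (c : ι → ℕ) (y : ι → H)
    (hy : ∀ i ∈ s, P (y i)) (hc : ∃ i ∈ s, c i ≠ 0) : P (∑ i ∈ s, c i • y i) := by
  classical
  have h1 : ∑ i ∈ s, c i • y i = ∑ i ∈ s.filter (fun i => c i ≠ 0), c i • y i := by
    rw [Finset.sum_filter_of_ne]
    intro i _ hi h0
    exact hi (by rw [h0, zero_nsmul])
  rw [h1]
  refine hS.sum _ ?_ _ ?_
  · obtain ⟨i, hi, hi2⟩ := hc
    exact ⟨i, by simp [hi, hi2]⟩
  · intro i hi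
    rw [Finset.mem_filter] at hi
    exact hS.nsmul _ _ (Nat.one_le_iff_ne_zero.mpr hi.2) (hy i hi.1)

/-- a sum of strictly positive elements with natural coefficients is `0` or strictly positive -/
theorem sum_nsmul' (hS : SOG P g) {ι : Type} (s : Finset ι) (c : ι → ℕ) (y : ι → H)
    (hy : ∀ i ∈ s, P (y i)) : ∑ i ∈ s, c i • y i = 0 ∨ P (∑ i ∈ s, c i • y i) := by
  by_cases hc : ∃ i ∈ s, c i ≠ 0
  · exact Or.inr (hS.sum_nsmul s c y hy hc)
  · left
    push Not at hc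
    exact Finset.sum_eq_zero fun i hi => by rw [hc i hi, zero_nsmul]

end SOG

/-- the family `w` of strictly positive elements refines the family `θ`, with the matrix `m` -/
structure Ref {H : Type} [AddCommGroup H] (P : H → Prop) {L : Type} (θ : L → H) {I : Type}
    [Fintype I] (w : I → H) (m : L → I → ℕ) : Prop where
  pos : ∀ i, P (w i)
  eq : ∀ l, θ l = ∑ i, m l i • w i

namespace Ref

variable {H : Type} [AddCommGroup H] {P : H → Prop}

/-- composition of refinements -/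
theorem comp {L I J : Type} [Fintype I] [Fintype J] {θ : L → H} {w : I → H} {v : J → H}
    {m : L → I → ℕ} {K : I → J → ℕ} (h1 : Ref P θ w m) (h2 : Ref P w v K) :
    Ref P θ v (fun l j => ∑ i, m l i * K i j) := by
  refine ⟨h2.pos, fun l => ?_⟩
  rw [h1.eq l]
  have : ∀ i, m l i • w i = ∑ j, (m l i * K i j) • v j := by
    intro i
    rw [h2.eq i, Finset.smul_sum]
    exact Finset.sum_congr rfl fun j _ => by rw [mul_comm, mul_nsmul]
  rw [Finset.sum_congr rfl fun i _ => this i, Finset.sum_comm]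
  exact Finset.sum_congr rfl fun j _ => by rw [Finset.sum_smul]

/-- the identity refinement -/
theorem id {L : Type} [Fintype L] [DecidableEq L] {θ : L → H} (h : ∀ l, P (θ l)) :
    Ref P θ θ (fun l i => if l = i then 1 else 0) :=
  ⟨h, fun l => by simp⟩

/-- a relation of the refined family is carried to a relation of the refining family -/
theorem rel {L I : Type} [Fintype L] [Fintype I] {θ : L → H} {w : I → H} {m : L → I → ℕ}
    (h1 : Ref P θ w m) (z : L → ℤ) :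
    ∑ i, (∑ l, z l * (m l i : ℤ)) • w i = ∑ l, z l • θ l := by
  have : ∀ l, z l • θ l = ∑ i, (z l * (m l i : ℤ)) • w i := by
    intro l
    rw [h1.eq l, Finset.smul_sum]
    exact Finset.sum_congr rfl fun i _ => by rw [mul_smul, natCast_zsmul]
  rw [Finset.sum_congr rfl fun l _ => this l, Finset.sum_comm]
  exact Finset.sum_congr rfl fun i _ => by rw [Finset.sum_smul]

end Ref

/-- matrices: `z (m K) = (z m) K` -/
theorem kill_comp {L I J : Type} [Fintype L] [Fintype I] (z : L → ℤ) (m : L → I → ℕ)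
    (K : I → J → ℕ) (j : J) :
    ∑ l, z l * ((∑ i, m l i * K i j : ℕ) : ℤ) = ∑ i, (∑ l, z l * (m l i : ℤ)) * (K i j : ℤ) := by
  push_cast
  simp_rw [Finset.mul_sum, Finset.sum_mul]
  rw [Finset.sum_comm]
  exact Finset.sum_congr rfl fun i _ => Finset.sum_congr rfl fun l _ => by ring

/-! ## Towers -/

/-- `(k, v)`, `v < n k`: the towers of level `k`, of height `h k v`; `M k v' v`: number of times
that the tower `v'` of level `k + 1` passes through the tower `v` of level `k` -/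
structure BRT (n : ℕ → ℕ) (h : ℕ → ℕ → ℕ) (M : ℕ → ℕ → ℕ → ℕ) : Prop where
  npos : ∀ k, 0 < n k
  hpos : ∀ k v, v < n k → 0 < h k v
  three : ∀ k v' v, v' < n (k + 1) → v < n k → 3 ≤ M k v' v
  ht : ∀ k v', v' < n (k + 1) → h (k + 1) v' = ∑ v ∈ range (n k), M k v' v * h k v

/-- the elements `th k v` of `H` (classes of the bases of the towers) -/
structure THom {H : Type} [AddCommGroup H] (P : H → Prop) (g : H) (n : ℕ → ℕ) (h : ℕ → ℕ → ℕ)
    (M : ℕ → ℕ → ℕ → ℕ) (th : ℕ → ℕ → H) : Prop where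
  pos : ∀ k v, v < n k → P (th k v)
  unit : ∀ k, ∑ v ∈ range (n k), h k v • th k v = g
  th_eq : ∀ k v, v < n k → th k v = ∑ v' ∈ range (n (k + 1)), M k v' v • th (k + 1) v'
  kill : ∀ k (z : ℕ → ℤ), ∑ v ∈ range (n k), z v • th k v = 0 →
    ∀ v', v' < n (k + 1) → ∑ v ∈ range (n k), (M k v' v : ℤ) * z v = 0
  span : ∀ x, P x → ∃ k, ∃ c : ℕ → ℕ, x = ∑ v ∈ range (n k), c v • th k v

/-- `p = (v, i)` is a symbol of level `k`: the floor `i` of the tower `v` -/
def Sym (n : ℕ → ℕ) (h : ℕ → ℕ → ℕ) (k : ℕ) (p : ℕ × ℕ) : Prop := p.1 < n k ∧ p.2 < h k p.1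

/-- `pr k` maps the symbols of level `k + 1` to the symbols of level `k`: the floor `i'` of the tower
`v'` lies in the floor `i` of the tower `v` -/
structure TSys (n : ℕ → ℕ) (h : ℕ → ℕ → ℕ) (M : ℕ → ℕ → ℕ → ℕ) (pr : ℕ → ℕ × ℕ → ℕ × ℕ) : Prop
    extends BRT n h M where
  mem : ∀ k p, Sym n h (k + 1) p → Sym n h k (pr k p)
  bot : ∀ k v', v' < n (k + 1) → pr k (v', 0) = (0, 0)
  top : ∀ k v', v' < n (k + 1) → pr k (v', h (k + 1) v' - 1) = (0, h k 0 - 1)
  suc : ∀ k v' i, v' < n (k + 1) → i + 1 < h (k + 1) v' →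
    (pr k (v', i)).2 + 1 < h k (pr k (v', i)).1 →
    pr k (v', i + 1) = ((pr k (v', i)).1, (pr k (v', i)).2 + 1)
  brk : ∀ k v' i, v' < n (k + 1) → i + 1 < h (k + 1) v' →
    (pr k (v', i)).2 + 1 = h k (pr k (v', i)).1 → (pr k (v', i + 1)).2 = 0
  cnt : ∀ k v' v i, v' < n (k + 1) → v < n k → i < h k v →
    ((range (h (k + 1) v')).filter (fun j => pr k (v', j) = (v, i))).card = M k v' v

/-- the points of the system: sequences of symbols, one for each level, compatible with `pr` -/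
def Om (n : ℕ → ℕ) (h : ℕ → ℕ → ℕ) (pr : ℕ → ℕ × ℕ → ℕ × ℕ) : Set (ℕ → ℕ × ℕ) :=
  {x | ∀ k, Sym n h k (x k) ∧ x k = pr k (x (k + 1))}

/-- the symbol of level `k` of the image, as a function of the symbol of level `k + 1` -/
def nxt (h : ℕ → ℕ → ℕ) (pr : ℕ → ℕ × ℕ → ℕ × ℕ) (k : ℕ) (p : ℕ × ℕ) : ℕ × ℕ :=
  if p.2 + 1 < h (k + 1) p.1 then pr k (p.1, p.2 + 1) else (0, 0)

/-- the symbol of level `k` of the inverse image, as a function of the symbol of level `k + 1` -/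
def prv (h : ℕ → ℕ → ℕ) (pr : ℕ → ℕ × ℕ → ℕ × ℕ) (k : ℕ) (p : ℕ × ℕ) : ℕ × ℕ :=
  if p.2 = 0 then (0, h k 0 - 1) else pr k (p.1, p.2 - 1)

/-- `s` is the tower map -/
def IsTow (n : ℕ → ℕ) (h : ℕ → ℕ → ℕ) (pr : ℕ → ℕ × ℕ → ℕ × ℕ)
    (s : ↥(Om n h pr) ≃ₜ ↥(Om n h pr)) : Prop :=
  ∀ x k, (s x).1 k = nxt h pr k (x.1 (k + 1))

/-- the value in `H` of the function `x ↦ F (x k)` -/
def Qv {H : Type} [AddCommGroup H] (n : ℕ → ℕ) (h : ℕ → ℕ → ℕ) (th : ℕ → ℕ → H) (k : ℕ)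
    (F : ℕ × ℕ → ℤ) : H :=
  ∑ v ∈ range (n k), (∑ i ∈ range (h k v), F (v, i)) • th k v

/-- `Q` is given by `Qv` on all levels -/
def IsQ {H : Type} [AddCommGroup H] (n : ℕ → ℕ) (h : ℕ → ℕ → ℕ) (pr : ℕ → ℕ × ℕ → ℕ × ℕ)
    (th : ℕ → ℕ → H) (Q : C(↥(Om n h pr), ℤ) →+ H) : Prop :=
  ∀ (f : C(↥(Om n h pr), ℤ)) (k : ℕ) (F : ℕ × ℕ → ℤ), (∀ x, f x = F (x.1 k)) → Q f = Qv n h th k F

/-- `Q : C(Ω, ℤ) → H` is the quotient by the coboundaries, an order isomorphism, `Q 1 = g` -/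
structure IsDim {H : Type} [AddCommGroup H] (P : H → Prop) (g : H) {Ω : Type} [TopologicalSpace Ω]
    (s : Ω ≃ₜ Ω) (Q : C(Ω, ℤ) →+ H) : Prop where
  one : Q 1 = g
  cob : ∀ f : C(Ω, ℤ), Q f = 0 ↔ ∃ e : C(Ω, ℤ), ∀ x, f x = e (s x) - e x
  nonneg : ∀ f : C(Ω, ℤ), (∀ x, 0 ≤ f x) → Q f = 0 ∨ P (Q f)
  pos : ∀ x, P x → ∃ f : C(Ω, ℤ), (∀ t, 0 ≤ f t) ∧ Q f = x
  surj : Function.Surjective Q

/-! ## States -/

/-- the real valued function of an integer valued function -/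
def intR {Ω : Type} [TopologicalSpace Ω] (f : C(Ω, ℤ)) : C(Ω, ℝ) :=
  ⟨fun x => (f x : ℝ), by fun_prop⟩

/-- `φ` is an invariant state of `C(Ω, ℝ)` -/
structure IsInvSt {Ω : Type} [TopologicalSpace Ω] (s : Ω ≃ₜ Ω) (φ : C(Ω, ℝ) →ₗ[ℝ] ℝ) : Prop where
  nonneg : ∀ f : C(Ω, ℝ), (∀ x, 0 ≤ f x) → 0 ≤ φ f
  one : φ 1 = 1
  inv : ∀ f : C(Ω, ℝ), φ (f.comp (s : C(Ω, Ω))) = φ f

/-- a dense homomorphism from `H` to the continuous affine functions on the compact convex set `K` -/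
structure KD {E : Type} [AddCommGroup E] [Module ℝ E] [TopologicalSpace E] (K : Set E) {H : Type}
    [AddCommGroup H] (ρ : H →+ C(K, ℝ)) (g : H) : Prop where
  compact : IsCompact K
  convex : Convex ℝ K
  nonempty : K.Nonempty
  aff : ∀ x, IsAff (ρ x)
  dense : ∀ a : C(K, ℝ), IsAff a → ∀ ε : ℝ, 0 < ε → ∃ x, ∀ t, |ρ x t - a t| < ε
  one : ρ g = 1

/-- `x ≫ 0` -/
def KP {E : Type} [TopologicalSpace E] (K : Set E) {H : Type} [AddCommGroup H] (ρ : H →+ C(K, ℝ))
    (x : H) : Prop := ∀ t, 0 < ρ x t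

end Pool.Agent.PVH
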