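import Pool.Agent.helper72.PV.DefsH

/-!
# Project pv (MP_376aaf_an), block H: Cantor minimal systems. The rows

Definitions and small lemmas (`SOG.nsmul`, `SOG.sum`, `SOG.sum_nsmul`, `SOG.sum_nsmul'`, `Ref.comp`,
`Ref.id`, `Ref.rel`, `kill_comp`) are in `DefsH.lean`.
-/

set_option autoImplicit false

open Finset

namespace Pool.Agent.PVH

open Pool.Agent.PV Pool.Agent.CZ

/-! ## I. The ordered group -/

/-- **SGK**: a dense homomorphism into `Aff(K)`, `K` a simplex, gives a simple ordered group.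

PROOF. `CompactSpace K` from `hK.compact` (`isCompact_iff_compactSpace`), `Nonempty K`. All `ρ x` are
affine. First: `IsAff` is closed under `a + b`, `a - b`, `c • a`, constants (direct from the
definition). Second: if `0 < a t` for all `t` (`a : C(K, ℝ)`), then there is `δ > 0` with `δ ≤ a t`
for all `t` (a continuous function on a nonempty compact space attains its minimum:
`IsCompact.exists_isMinOn` or `exists_forall_le`-style lemmas).
add, zero (`ρ 0 = 0`, `K` nonempty), unperf (`ρ (n • x) t = n * ρ x t`, `n ≥ 1`), tf (hypothesis),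
unit (`ρ g = 1`) are immediate. arch: `δ ≤ ρ x t`, `ρ y t ≤ C` (compactness), take a natural number
`n ≥ 1` with `n δ > C` (`exists_nat_gt`).
intp: let `δ > 0` with `3 δ ≤ ρ b_j t - ρ a_i t` for all `t` and the four pairs. The functions
`ρ a_i + δ` and `ρ b_j - δ` are affine, `ρ a_i + δ ≤ ρ b_j - δ`; `IsSimplex` gives an affine `c'` with
`ρ a_i + δ ≤ c' ≤ ρ b_j - δ`; density with `ε = δ / 2` gives `c : H` with `|ρ c t - c' t| < δ / 2`, so
`ρ a_i t < ρ c t < ρ b_j t`.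
div: `δ > 0` with `2 δ ≤ ρ e t` for all `t`; the function `a = (1 / n) • (ρ x - (1 / 2) • ρ e)` is
affine; density with `ε = δ / n` gives `u` with `|n ρ u t - (ρ x t - ρ e t / 2)| < δ ≤ ρ e t / 2`, so
`0 < ρ x t - n ρ u t < ρ e t`. -/
def SGK_stmt : Prop :=
  ∀ (E : Type) [AddCommGroup E] [Module ℝ E] [TopologicalSpace E] (K : Set E) (_ : IsSimplex K)
    (H : Type) [AddCommGroup H] (ρ : H →+ C(K, ℝ)) (g : H) (_ : KD K ρ g)
    (_ : ∀ (n : ℕ) (x : H), 1 ≤ n → n • x = 0 → x = 0), SOG (KP K ρ) g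

/-- **RDC**: Riesz decomposition.

PROOF. Two summands: `P x`, `P y₁`, `P y₂`, `P (y₁ + y₂ - x)`. Use `intp` with `a₁ = 0`,
`a₂ = x - y₂`, `b₁ = x`, `b₂ = y₁`: the four differences are `x`, `y₂`, `y₁`, `y₁ + y₂ - x`. So there
is `c` with `P c`, `P (c - (x - y₂))`, `P (x - c)`, `P (y₁ - c)`; `z₁ = c`, `z₂ = x - c`
(`y₂ - z₂ = c - (x - y₂)`). General case: induction over the nonempty finite set `s`
(`Finset.Nonempty.cons_induction`), for all `x`. Singleton `{a}`: `z a = x`. `cons a s`: two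
summands with `y₁ = y a`, `y₂ = ∑ i ∈ s, y i` (`P y₂` by `SOG.sum`); apply the induction hypothesis to
`z₂`; define `z` by `z a = z₁` (`Function.update`). -/
def RDC_stmt : Prop :=
  ∀ (H : Type) [AddCommGroup H] (P : H → Prop) (g : H), SOG P g →
    ∀ (ι : Type) (s : Finset ι), s.Nonempty → ∀ (y : ι → H) (x : H), P x → (∀ i ∈ s, P (y i)) →
      P (∑ i ∈ s, y i - x) →
      ∃ z : ι → H, (∀ i ∈ s, P (z i)) ∧ (∀ i ∈ s, P (y i - z i)) ∧ ∑ i ∈ s, z i = x

/-- **LOW**: common strict lower bounds.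

PROOF. (A) There is `e₀` with `P e₀` and `P (y i - e₀)` for `i ∈ s`: induction on `s`. Empty:
`e₀ = g`. Insert `a s`: `e` for `s`; `intp` with `a₁ = a₂ = 0`, `b₁ = y a`, `b₂ = e` gives `c` with `P c`,
`P (y a - c)`, `P (e - c)`; `y i - c = (y i - e) + (e - c)` for `i ∈ s`.
(B) `n = 0`: `e = e₀`. `n ≥ 1`: `div n e₀ e₀` gives `u` with `P (e₀ - n • u)`,
`P (e₀ - (e₀ - n • u)) = P (n • u)`, so `P u` by `unperf`; `y i - n • u = (y i - e₀) + (e₀ - n • u)`.
Take `e = u`. -/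
def LOW_stmt : Prop :=
  ∀ (H : Type) [AddCommGroup H] (P : H → Prop) (g : H), SOG P g →
    ∀ (ι : Type) (s : Finset ι) (y : ι → H) (n : ℕ), (∀ i ∈ s, P (y i)) →
      ∃ e, P e ∧ ∀ i ∈ s, P (y i - n • e)

/-! ## II. Shen refinement -/

/-- **SHX**: elimination of `θ l₀ = ∑ l ∈ N, θ l`.

PROOF. `L' = {l // l ≠ l₀}`, `θ' l' = θ l'.1`, `A l l' = if l = l₀ then (if l'.1 ∈ N then 1 else 0)
else (if l = l'.1 then 1 else 0)` (classical). Refinement: for `l ≠ l₀` the sum has one term; for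
`l₀` it is `∑ l' , if l'.1 ∈ N then θ l'.1 else 0 = ∑ l ∈ N, θ l` (`l₀ ∉ N`). For `z` as in the
statement: `∑ l, z l * A l l' = z l₀ * (if l'.1 ∈ N then 1 else 0) + z l'.1`, which is `0` (if
`l'.1 ∈ N`: `z l'.1 = - z l₀`; otherwise `z l'.1 = 0`). -/
def SHX_stmt : Prop :=
  ∀ (H : Type) [AddCommGroup H] (P : H → Prop) (L : Type) [Fintype L] (θ : L → H),
    (∀ l, P (θ l)) → ∀ (l₀ : L) (N : Finset L), l₀ ∉ N → θ l₀ = ∑ l ∈ N, θ l →
    ∃ (L' : Type) (_ : Fintype L') (θ' : L' → H) (A : L → L' → ℕ), Ref P θ θ' A ∧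
      ∀ z : L → ℤ, (∀ l, l ∉ N → l ≠ l₀ → z l = 0) → (∀ l ∈ N, z l = -z l₀) →
        ∀ l', ∑ l, z l * (A l l' : ℤ) = 0

/-- **SHG**: the generic step: `θ l₀ = ∑ l ∈ N, x l` with `0 ≪ x l ≪ θ l`.

PROOF. `L' = {l // l ≠ l₀} ⊕ {l // l ∈ N}`, `θ' (inl l) = if l ∈ N then θ l - x l else θ l`,
`θ' (inr l) = x l`; `A l (inl l') = if l = l'.1 then 1 else 0`,
`A l (inr l') = if l = l₀ ∨ l = l'.1 then 1 else 0`. Refinement: `l ≠ l₀`, `l ∈ N`:
`(θ l - x l) + x l`; `l ≠ l₀`, `l ∉ N`: `θ l`; `l₀`: `∑ l ∈ N, x l`. Let `z' l' = ∑ l, z l * A l l'`: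
`z' (inl l') = z l'.1`, `z' (inr l') = k + z l'.1` (`l'.1 ≠ l₀` as `l₀ ∉ N`), which lies in
`[0, k - 1]` as `-k ≤ z l'.1 < 0`. So `|z'| ≤ k`, and `|z' l'| = k` only for `l' = inl l` with
`|z l| = k`, `l ≠ l₀`: the map `inl l ↦ l` is an injection of `{l' | |z' l'| = k}` into
`{l | |z l| = k} \ {l₀}` (`Finset.card_lt_card` with `Finset.card_le_card_of_injOn` or
`Finset.card_image_of_injOn`), and `|z l₀| = k`. -/
def SHG_stmt : Prop :=
  ∀ (H : Type) [AddCommGroup H] (P : H → Prop) (L : Type) [Fintype L] (θ x : L → H),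
    (∀ l, P (θ l)) → ∀ (l₀ : L) (N : Finset L), l₀ ∉ N → (∀ l ∈ N, P (x l)) →
    (∀ l ∈ N, P (θ l - x l)) → θ l₀ = ∑ l ∈ N, x l →
    ∃ (L' : Type) (_ : Fintype L') (θ' : L' → H) (A : L → L' → ℕ), Ref P θ θ' A ∧
      ∀ (z : L → ℤ) (k : ℤ), 1 ≤ k → z l₀ = k → (∀ l, |z l| ≤ k) → (∀ l ∈ N, z l < 0) →
        (∀ l', |∑ l, z l * (A l l' : ℤ)| ≤ k) ∧
        (univ.filter fun l' => |∑ l, z l * (A l l' : ℤ)| = k).card <
          (univ.filter fun l => |z l| = k).card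

/-- **SHS**: one step of the algorithm of Shen.

PROOF. If `z l₀ = -k`, replace `z` by `-z` (relation, absolute values and the conclusion are the
same: `∑ (-z l) * A = -∑`, `abs_neg`). So let `z l₀ = k`. Let `N = {l | z l < 0}`, `l₀ ∉ N`; define
`c l = 0` if `l = l₀`, `c l = k + z l` if `z l < 0`, `c l = z l` otherwise (`l ≠ l₀`); `0 ≤ c l`
because `|z l| ≤ k`. Adding the relation: `k • (∑ l ∈ N, θ l - θ l₀) = ∑ l, c l • θ l`
(subtract `∑ l, z l • θ l = 0`; termwise: `c l - z l = k` on `N`, `= -k` at `l₀`, `= 0` elsewhere).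
Case A: all `c l = 0`. By `tf`, `θ l₀ = ∑ l ∈ N, θ l`. SHX with `N`: `z l = 0` for `l ∉ N`, `l ≠ l₀`;
`z l = -k = -z l₀` on `N`. So the new `z'` is `0`: `|0| ≤ k`, and the new count is `0` (`k ≥ 1`), the
old one is `> 0` (it contains `l₀`).
Case B: some `c l ≠ 0`. With `c l = ((c l).toNat : ℤ)` and `SOG.sum_nsmul` the right hand side is
strictly positive, so `P (∑ l ∈ N, θ l - θ l₀)` by `unperf`. `N` is nonempty: otherwise
`P (-θ l₀)`, and adding `P (θ l₀)` gives `P 0`. RDC with `s = N`, `y = θ`, `x = θ l₀`, then SHG. -/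
def SHS_stmt : Prop :=
  ∀ (H : Type) [AddCommGroup H] (P : H → Prop) (g : H), SOG P g →
    ∀ (L : Type) [Fintype L] (θ : L → H), (∀ l, P (θ l)) → ∀ (z : L → ℤ) (k : ℤ),
      ∑ l, z l • θ l = 0 → 1 ≤ k → (∀ l, |z l| ≤ k) → ∀ l₀, |z l₀| = k →
    ∃ (L' : Type) (_ : Fintype L') (θ' : L' → H) (A : L → L' → ℕ), Ref P θ θ' A ∧
        (∀ l', |∑ l, z l * (A l l' : ℤ)| ≤ k) ∧
        (univ.filter fun l' => |∑ l, z l * (A l l' : ℤ)| = k).card <
          (univ.filter fun l => |z l| = k).card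

/-- **SHC**: one relation can be killed.

PROOF. Claim: for all `k c : ℕ`, all `L, θ, z` with `∑ z l • θ l = 0`, `|z l| ≤ k` and
`#{l | |z l| = k} ≤ c`, the conclusion holds. Induction on `k`. `k = 0`: `z = 0`, take `Ref.id`
(classical decidable equality). `k + 1`: induction on `c`. If no `l` has `|z l| = k + 1`, then
`|z l| ≤ k`: use the claim for `k` and `c = Fintype.card L`. Otherwise `c ≥ 1` and SHS (with `k + 1`)
gives `L', θ', A`, `z' = z A` with `|z'| ≤ k + 1` and a smaller count, so `≤ c - 1`. `z'` is a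
relation of `θ'` by `Ref.rel`. The induction hypothesis for `(L', θ', z')` gives `(L'', θ'', A')`;
compose: `Ref.comp`, `kill_comp`. Finally apply the claim with `k = ∑ l, (z l).natAbs` and
`c = Fintype.card L`. -/
def SHC_stmt : Prop :=
  ∀ (H : Type) [AddCommGroup H] (P : H → Prop) (g : H), SOG P g →
    ∀ (L : Type) [Fintype L] (θ : L → H), (∀ l, P (θ l)) → ∀ z : L → ℤ, ∑ l, z l • θ l = 0 →
    ∃ (L' : Type) (_ : Fintype L') (θ' : L' → H) (A : L → L' → ℕ), Ref P θ θ' A ∧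
      ∀ l', ∑ l, z l * (A l l' : ℤ) = 0

/-- **SHD**: all relations can be killed at once.

PROOF. `R = {z : L → ℤ | ∑ l, z l • θ l = 0}` is a submodule of `L → ℤ` (the kernel of a linear map),
so it is finitely generated (`IsNoetherian.noetherian`, `L → ℤ` is a Noetherian `ℤ`-module): `R` is
the span of a finite set `S`. By induction on finite sets `S ⊆ R` there is a refinement killing
all `z ∈ S`: empty set: `Ref.id`; insert `a S`: take `(L', θ', A)` for `S`; `z' = a A` is a relation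
of `θ'` by `Ref.rel`; SHC gives `(L'', θ'', A')` killing `z'`; the composition kills `a` and `S`
(`Ref.comp`, `kill_comp`). The `z` with `z A = 0` form a submodule, which contains `S`, so `R`
(`Submodule.span_induction` or `Submodule.span_le`). -/
def SHD_stmt : Prop :=
  ∀ (H : Type) [AddCommGroup H] (P : H → Prop) (g : H), SOG P g →
    ∀ (L : Type) [Fintype L] (θ : L → H), (∀ l, P (θ l)) →
    ∃ (L' : Type) (_ : Fintype L') (θ' : L' → H) (A : L → L' → ℕ), Ref P θ θ' A ∧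
      ∀ z : L → ℤ, ∑ l, z l • θ l = 0 → ∀ l', ∑ l, z l * (A l l' : ℤ) = 0

/-- **MIX**: a refinement with all multiplicities `≥ 3`.

PROOF. 1. LOW (`s = univ`, `y = w`, `n = 3`): `s₀` with `P s₀`, `P (w i - 3 • s₀)`; put
`w' i = w i - 3 • s₀`. 2. LOW (`ι = Unit`, `y = s₀`, `n = 2 * Fintype.card I`): `e₀` with `P e₀`,
`P (s₀ - (2 * card I) • e₀)`. 3. `arch`: `N i ≥ 1` with `P (N i • e₀ - w' i)`; `N = ∑ i, N i` is
`≥ 1` (`I` nonempty), and `P (N • e₀ - w' i)`, as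
`N • e₀ - w' i = (N - N i) • e₀ + (N i • e₀ - w' i)`. 4. `intp` with `a₁ = a₂ = 0`, `b₁ = e₀`,
`b₂ = w' i`: `e i` with `P (e i)`, `P (e₀ - e i)`, `P (w' i - e i)`. 5. `div N (w' i) (e i)`: `u i` such
that `u'' i = w' i - N • u i` satisfies `P (u'' i)`, `P (e i - u'' i)`. 6.
`N • u i = (w' i - e i) + (e i - u'' i)`, so `P (u i)` by `unperf`;
`N • (e₀ - u i) = (N • e₀ - w' i) + u'' i`, so `P (e₀ - u i)`; `e₀ - u'' i = (e₀ - e i) + (e i - u'' i)`.
7. `v₀ = s₀ - ∑ i, (u i + u'' i) = (s₀ - (2 * card I) • e₀) + ∑ i, ((e₀ - u i) + (e₀ - u'' i))`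
satisfies `P v₀`. 8. `J = Option (I ⊕ I)`, `v none = v₀`, `v (inl i) = u i`, `v (inr i) = u'' i`,
`K i none = 3`, `K i (inl i') = 3 + (if i = i' then N else 0)`,
`K i (inr i') = 3 + (if i = i' then 1 else 0)`. The sum is
`3 v₀ + 3 ∑ (u i' + u'' i') + N u i + u'' i = 3 s₀ + w' i = w i`
(`Fintype.sum_option`, `Fintype.sum_sum_type`). -/
def MIX_stmt : Prop :=
  ∀ (H : Type) [AddCommGroup H] (P : H → Prop) (g : H), SOG P g →
    ∀ (I : Type) [Fintype I] [Nonempty I] (w : I → H), (∀ i, P (w i)) →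
    ∃ (J : Type) (_ : Fintype J) (v : J → H) (K : I → J → ℕ), Ref P w v K ∧ ∀ i j, 3 ≤ K i j

/-- **STP**: the stage step.

PROOF. SHD for `L = Option J`, `θ none = x`, `θ (some j) = v j`: `(I, w, m)`. `I` is nonempty:
otherwise `x = ∑ i, m none i • w i = 0`, but `¬ P 0`. MIX for `w`: `(J', v', K)`. Put
`M j j' = ∑ i, m (some j) i * K i j'`: a refinement of `v` (restrict `Ref` to `some`, `Ref.comp`).
`3 ≤ M j j'`: some `i` has `m (some j) i ≥ 1`, otherwise `v j = 0`; then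
`M j j' ≥ m (some j) i * K i j' ≥ 3` (`Finset.single_le_sum`). Relations `z` of `v`: extend by
`z none = 0` to a relation of `θ` (`Fintype.sum_option`), killed by `m`, so killed by `M`
(`kill_comp`). Last: `x = ∑ i, m none i • w i = ∑ j', (∑ i, m none i * K i j') • v' j'`. -/
def STP_stmt : Prop :=
  ∀ (H : Type) [AddCommGroup H] (P : H → Prop) (g : H), SOG P g →
    ∀ (J : Type) [Fintype J] (v : J → H), (∀ j, P (v j)) → ∀ x, P x →
    ∃ (J' : Type) (_ : Fintype J') (v' : J' → H) (M : J → J' → ℕ), Ref P v v' M ∧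
      (∀ j j', 3 ≤ M j j') ∧
      (∀ z : J → ℤ, ∑ j, z j • v j = 0 → ∀ j', ∑ j, z j * (M j j' : ℤ) = 0) ∧
      ∃ c : J' → ℕ, x = ∑ j', c j' • v' j'

/-- **STN**: the stage step, indexed by natural numbers.

PROOF. STP for `J = Fin n`, `v` restricted to `Fin n`. Let `n' = Fintype.card J'`,
`e : J' ≃ Fin n'` (`Fintype.equivFin`); `n' > 0` since `x = ∑ c j' • v' j'` is not `0` (`¬ P 0`).
`w j' = v' (e.symm j')` for `j' < n'` (arbitrary otherwise), `M' j' j = M j (e.symm j')`.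
Sums: `Finset.sum_range`, `Equiv.sum_comp`. Note the order of the indices: `M' j' j` (new, old). -/
def STN_stmt : Prop :=
  ∀ (H : Type) [AddCommGroup H] (P : H → Prop) (g : H), SOG P g →
    ∀ (n : ℕ) (v : ℕ → H), 0 < n → (∀ j, j < n → P (v j)) → ∀ x, P x →
    ∃ (n' : ℕ) (w : ℕ → H) (M : ℕ → ℕ → ℕ), 0 < n' ∧ (∀ j', j' < n' → P (w j')) ∧
      (∀ j, j < n → v j = ∑ j' ∈ range n', M j' j • w j') ∧
      (∀ j' j, j' < n' → j < n → 3 ≤ M j' j) ∧
      (∀ z : ℕ → ℤ, ∑ j ∈ range n, z j • v j = 0 → ∀ j', j' < n' →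
        ∑ j ∈ range n, (M j' j : ℤ) * z j = 0) ∧
      ∃ c : ℕ → ℕ, x = ∑ j' ∈ range n', c j' • w j'

/-- **SEQ**: the sequence of the stages.

PROOF. `{x // P x}` is countable and nonempty (`g`), so there is `e : ℕ → H` with `P (e i)` for all `i`
and every `x` with `P x` of the form `e i` (`exists_surjective_nat`). States: pairs
`S = (n, v) : ℕ × (ℕ → H)` with `0 < n`, `P (v j)` for `j < n` (a subtype). Start: `(1, fun _ => g)`. By
STN (choice) the state `S k` and `x = e k` give the state `S (k + 1)` and the matrix `M k`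
(`Nat.rec` on the subtype; then define `n k`, `th k`, `M k` from it). Heights: `h 0 v = 1`,
`h (k + 1) v' = ∑ v ∈ range (n k), M k v' v * h k v`. `hpos`: induction, all `M k v' v ≥ 3`,
`n k > 0`. `unit`: induction: `k = 0`: `1 • g = g`; `k + 1`:
`∑ v', (∑ v, M k v' v * h k v) • th (k + 1) v' = ∑ v, h k v • ∑ v', M k v' v • th (k + 1) v' = ∑ v, h k v • th k v = g`.
`span`: `x = e i` is in the span of level `i + 1`. -/
def SEQ_stmt : Prop :=
  ∀ (H : Type) [AddCommGroup H] [Countable H] (P : H → Prop) (g : H), SOG P g →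
    ∃ (n : ℕ → ℕ) (h : ℕ → ℕ → ℕ) (M : ℕ → ℕ → ℕ → ℕ) (th : ℕ → ℕ → H),
      BRT n h M ∧ THom P g n h M th

/-! ## III. Words and towers -/

/-- **WRD**: the floors of a word of towers.

PROOF. Induction on `l`. `l = [a]`: `q i = (a, i)`; the sum is `h a`; all clauses are immediate
(count: `{j < h a | (a, j) = (v, i)}` is `{i}` if `v = a`, empty otherwise).
`l = a :: l'`, `l' ≠ []`, `q'` for `l'`: `q i = if i < h a then (a, i) else q' (i - h a)`. Sum:
`h a + s'`. Head: `q 0 = (a, 0)` (`0 < h a`). Last: `q (h a + s' - 1) = q' (s' - 1)` (`0 < s'`: the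
first clause... `s' ≥ h b > 0` for the head `b` of `l'`), and `getLast? (a :: l') = getLast? l'`.
Successor, for `i + 1 < h a + s'`: if `i + 1 < h a`: inside `(a, i)`; if `i + 1 = h a`: `q i = (a, h a - 1)`
is a top, and `q (i + 1) = q' 0 = (b, 0)`; if `i ≥ h a`: the rule for `q'`. Count: split
`range (h a + s')` into `j < h a` (count `1` if `v = a`, otherwise `0`; `i < h v`) and
`j = h a + j'` (the count of `q'`): `List.count_cons`. (Clause for the count with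
`Finset.card_filter` and `Finset.sum_range_add`-type splitting, e.g. `Finset.sum_range_add_sum`..,
`Finset.range_add`, or `Finset.prod_range_add`.) -/
def WRD_stmt : Prop :=
  ∀ (h : ℕ → ℕ) (l : List ℕ), (∀ v ∈ l, 0 < h v) → l ≠ [] → ∃ q : ℕ → ℕ × ℕ,
    (∀ i, i < (l.map h).sum → (q i).1 ∈ l ∧ (q i).2 < h (q i).1) ∧
    (∀ a, l.head? = some a → q 0 = (a, 0)) ∧
    (∀ a, l.getLast? = some a → q ((l.map h).sum - 1) = (a, h a - 1)) ∧
    (∀ i, i + 1 < (l.map h).sum → (q i).2 + 1 < h (q i).1 →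
      q (i + 1) = ((q i).1, (q i).2 + 1)) ∧
    (∀ i, i + 1 < (l.map h).sum → (q i).2 + 1 = h (q i).1 → (q (i + 1)).2 = 0) ∧
    (∀ v i, i < h v →
      ((range (l.map h).sum).filter (fun j => q j = (v, i))).card = l.count v)

/-- **TSY**: the projections of the symbols.

PROOF. For `k`, `v' < n (k + 1)` let
`l = 0 :: (mid ++ [0])`, `mid = (List.range (n k)).flatMap (fun v => List.replicate (if v = 0 then M k v' 0 - 2 else M k v' v) v)`.
Then `l.count v = M k v' v` for `v < n k` (`M k v' 0 ≥ 3`; `0 < n k`) and all letters are `< n k`,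
`(l.map (h k)).sum = ∑ v ∈ range (n k), l.count v * h k v = h (k + 1) v'`
(`Finset.sum_list_map_count`, then `Finset.sum_subset`). WRD with `h := h k` gives `q`; choose one
for all `k, v'` (classical; anything if `v' ≥ n (k + 1)`) and put `pr k (v', j) = q j`. All clauses
are translations: `l.head? = some 0`, `l.getLast? = some 0`. -/
def TSY_stmt : Prop :=
  ∀ (n : ℕ → ℕ) (h : ℕ → ℕ → ℕ) (M : ℕ → ℕ → ℕ → ℕ), BRT n h M → ∃ pr, TSys n h M pr

/-- **TSM**: sums over towers.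

PROOF. Let `S = (range (n k)).sigma (fun v => range (h k v))` (or the product form). Every
`j < h (k + 1) v'` has `pr k (v', j) = (v, i)` with `v < n k`, `i < h k v` (`mem`). So
`∑ j, F (pr k (v', j)) = ∑ (v, i), #{j | pr k (v', j) = (v, i)} * F (v, i)`
(`Finset.sum_comp`-like: `Finset.sum_fiberwise_of_maps_to`, `Finset.sum_const`), and the cardinality is
`M k v' v` by `cnt`. -/
def TSM_stmt : Prop :=
  ∀ (n : ℕ → ℕ) (h : ℕ → ℕ → ℕ) (M : ℕ → ℕ → ℕ → ℕ) (pr : ℕ → ℕ × ℕ → ℕ × ℕ), TSys n h M pr →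
    ∀ (k v' : ℕ) (F : ℕ × ℕ → ℤ), v' < n (k + 1) →
      ∑ j ∈ range (h (k + 1) v'), F (pr k (v', j)) =
        ∑ v ∈ range (n k), (M k v' v : ℤ) * ∑ i ∈ range (h k v), F (v, i)

/-! ## IV. The space -/

/-- **SHF**: the tower map exists and is a homeomorphism.

PROOF. `s x = (nxt h pr k (x (k + 1)))_k`, `s⁻¹ x = (prv h pr k (x (k + 1)))_k`.
(0) Predecessor rule: `v' < n (k + 1)`, `i + 1 < h (k + 1) v'`, `pr k (v', i + 1) = (v, j)`: if
`j ≥ 1` then `pr k (v', i) = (v, j - 1)`; if `j = 0` then `pr k (v', i) = (w, l)` with `l + 1 = h k w`.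
(Let `pr k (v', i) = (w, l)`, `l < h k w` by `mem`. If `l + 1 < h k w`, `suc` gives `(v, j) = (w, l + 1)`;
if `l + 1 = h k w`, `brk` gives `j = 0`.) A symbol `(v', i')` of level `k + 1` with
`i' + 1 = h (k + 1) v'` has `pr k (v', i') = (0, h k 0 - 1)` (`top`).
(1) `s x ∈ Om`. `Sym`: `mem`, and `(0, 0)` is a symbol (`npos`, `hpos`).
Compatibility `nxt k (x (k + 1)) = pr k (nxt (k + 1) (x (k + 2)))`: let `x (k + 2) = (v'', i'')`,
`x (k + 1) = pr (k + 1) (v'', i'') = (v', i')`. If `i'' + 1 < h (k + 2) v''`: `nxt (k + 1) = pr (k + 1) (v'', i'' + 1)`,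
which is `(v', i' + 1)` if `i' + 1 < h (k + 1) v'` (then `pr k` of it is `nxt k (v', i')`), and `(w, 0)` if
`i' + 1 = h (k + 1) v'` (then `pr k (w, 0) = (0, 0) = nxt k (v', i')` by `bot`). If
`i'' + 1 = h (k + 2) v''`: `nxt (k + 1) = (0, 0)`, `pr k (0, 0) = (0, 0)`, and `(v', i') = (0, h (k + 1) 0 - 1)` by
`top`, so `nxt k (v', i') = (0, 0)`.
(2) `s⁻¹ x ∈ Om` in the same way with the predecessor rule: `i'' ≥ 1`: `prv (k + 1) = pr (k + 1) (v'', i'' - 1)`,
which is `(v', i' - 1)` if `i' ≥ 1`, and a top `(w, l)` if `i' = 0`, and then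
`pr k (w, l) = (0, h k 0 - 1) = prv k (v', 0)`; `i'' = 0`: `x (k + 1) = (0, 0)`, `prv (k + 1) = (0, h (k + 1) 0 - 1)` and
`pr k` of it is `(0, h k 0 - 1)`.
(3) `s (s⁻¹ x) = x`: component `k` is `nxt k (prv (k + 1) (x (k + 2)))`. `i'' ≥ 1`:
`prv (k + 1) = pr (k + 1) (v'', i'' - 1) = (w, l)`; if `l + 1 < h (k + 1) w` then `x (k + 1) = (w, l + 1)` (`suc`) and
`nxt k (w, l) = pr k (w, l + 1) = x k`; if `l + 1 = h (k + 1) w` then `x (k + 1) = (w', 0)` (`brk`), `x k = (0, 0)`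
(`bot`) and `nxt k (w, l) = (0, 0)`. `i'' = 0`: `x (k + 1) = (0, 0)`, `x k = (0, 0)`, and
`nxt k (0, h (k + 1) 0 - 1) = (0, 0)`. (4) `s⁻¹ (s x) = x`: component `k` is
`prv k (nxt (k + 1) (x (k + 2)))`. `i'' + 1 < h (k + 2) v''`: `nxt (k + 1) = pr (k + 1) (v'', i'' + 1) = (w, l)`; if
`l ≥ 1`, then `x (k + 1) = (w, l - 1)` and `prv k (w, l) = pr k (w, l - 1) = x k`; if `l = 0`, then `x (k + 1)` is
a top, `x k = (0, h k 0 - 1) = prv k (w, 0)`. `i'' + 1 = h (k + 2) v''`: `nxt (k + 1) = (0, 0)`,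
`prv k (0, 0) = (0, h k 0 - 1)`; `x (k + 1) = (0, h (k + 1) 0 - 1)` and `x k = (0, h k 0 - 1)` by `top`.
Continuity: each component is a function of one coordinate with values in a discrete space
(`continuous_of_discreteTopology.comp`, `continuous_pi`, `Continuous.subtype_mk`). -/
def SHF_stmt : Prop :=
  ∀ (n : ℕ → ℕ) (h : ℕ → ℕ → ℕ) (M : ℕ → ℕ → ℕ → ℕ) (pr : ℕ → ℕ × ℕ → ℕ × ℕ), TSys n h M pr →
    ∃ s : ↥(Om n h pr) ≃ₜ ↥(Om n h pr), IsTow n h pr s

/-- **OTP**: the topology of the space.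

PROOF. `Om` is closed in `ℕ → ℕ × ℕ` (intersection of preimages of sets under continuous maps to
discrete spaces: `isClosed_iInter`/`isClosed_setOf`.., `isClosed_discrete`) and contained in
`Set.pi univ (fun k => {p | Sym n h k p})`, which is compact (`isCompact_univ_pi`; each factor is
finite: `Sym n h k p` implies `p.1 < n k` and `p.2 < ∑ v ∈ range (n k), h k v`). So it is compact.
Second countable: product of countably many countable discrete spaces, subspace (instances);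
compact Hausdorff, so regular, so metrizable (`TopologicalSpace.metrizableSpace_of_t3_secondCountable`).
Totally disconnected: `Pi.totallyDisconnectedSpace`, `Subtype.totallyDisconnectedSpace`. -/
def OTP_stmt : Prop :=
  ∀ (n : ℕ → ℕ) (h : ℕ → ℕ → ℕ) (pr : ℕ → ℕ × ℕ → ℕ × ℕ),
    CompactSpace ↥(Om n h pr) ∧ TopologicalSpace.MetrizableSpace ↥(Om n h pr) ∧
      TotallyDisconnectedSpace ↥(Om n h pr)

/-- **OCC**: every symbol occurs.

PROOF. Lifting: if `Sym n h k (v, i)`, then with `v' = 0 < n (k + 1)` the set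
`{j < h (k + 1) 0 | pr k (0, j) = (v, i)}` has `M k 0 v ≥ 3` elements, so there is a symbol `q` of
level `k + 1` with `pr k q = (v, i)`. Choose lifts `y i` of level `k + i`, `y 0 = p`,
`pr (k + i) (y (i + 1)) = y i` (a dependent choice: `Nat.rec` on a subtype or
`exists_seq_of_forall..`). Define `dn j 0 q = q`, `dn j (i + 1) q = pr j (dn (j + 1) i q)` (the image in
level `j` of a symbol `q` of level `j + i`); `dn j (i + 1) q = dn j i (pr (j + i) q)` by induction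
(casts avoided: `j + (i + 1) = (j + 1) + i`). Put `x j = dn j k (y j)` (`y j` has level `k + j = j + k`).
`x j = pr j (x (j + 1))`: `pr j (dn (j + 1) k (y (j + 1))) = dn j (k + 1) (y (j + 1)) = dn j k (pr (j + k) (y (j + 1))) = dn j k (y j)`.
`Sym` by `mem`. `x k = dn k k (y k) = y 0 = p`, because `dn k i (y i) = y 0` by induction on `i`. -/
def OCC_stmt : Prop :=
  ∀ (n : ℕ → ℕ) (h : ℕ → ℕ → ℕ) (M : ℕ → ℕ → ℕ → ℕ) (pr : ℕ → ℕ × ℕ → ℕ × ℕ), TSys n h M pr →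
    ∀ (k : ℕ) (p : ℕ × ℕ), Sym n h k p → ∃ x : ↥(Om n h pr), x.1 k = p

/-- **OIN**: the space is infinite.

PROOF. `h k v ≥ 3 ^ k` for `v < n k`: induction, `h (k + 1) v' ≥ M k v' 0 * h k 0 ≥ 3 * 3 ^ k`
(`Finset.single_le_sum`). If `Om` were finite, with `c` elements: by OCC choose `x_i` with
`x_i k = (0, i)` for `i < h k 0`; the `x_i` are distinct, so `3 ^ k ≤ h k 0 ≤ c` for all `k`,
impossible for `k = c` (`Nat.lt_pow_self`). -/
def OIN_stmt : Prop :=
  ∀ (n : ℕ → ℕ) (h : ℕ → ℕ → ℕ) (M : ℕ → ℕ → ℕ → ℕ) (pr : ℕ → ℕ × ℕ → ℕ × ℕ), TSys n h M pr →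
    Infinite ↥(Om n h pr)

/-- **CYL**: the cylinders form a base.

PROOF. `U` is the trace of an open set of `ℕ → ℕ × ℕ`; by the definition of the product topology
(`isOpen_pi_iff`) there are a finite set `I` of levels such that every `y` with `y i = x i` for
`i ∈ I` is in `U` (the factors are discrete, singletons are not needed: `x i` is in the open factor).
Let `k` be larger than all elements of `I`. If `y k = x k`, then `y j = x j` for all `j ≤ k`, by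
downward induction from `x j = pr j (x (j + 1))`. -/
def CYL_stmt : Prop :=
  ∀ (n : ℕ → ℕ) (h : ℕ → ℕ → ℕ) (pr : ℕ → ℕ × ℕ → ℕ × ℕ) (U : Set ↥(Om n h pr)), IsOpen U →
    ∀ x ∈ U, ∃ k, ∀ y : ↥(Om n h pr), y.1 k = x.1 k → y ∈ U

/-- **OST**: the motion inside a tower.

PROOF. (a) `x k = (v, i)` with `i + 1 < h k v`, `x (k + 1) = (v', i')`, `pr k (v', i') = (v, i)`.
`(v', i')` is not a top: otherwise `(v, i) = (0, h k 0 - 1)` by `top`, a top. So
`(s x) k = nxt = pr k (v', i' + 1) = (v, i + 1)` by `suc`. (b) `i + 1 = h k v`: `nxt` is `(0, 0)` or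
`pr k (v', i' + 1)` with second component `0` by `brk`. (c) `x k = (v, i)`. For `m : ℕ` with
`i + m < h k v`: `(s ^ m x) k = (v, i + m)` by induction with (a). For `m ≤ i`:
`(s⁻¹ ^ m x) k = (v, i - m)` by induction: if `y k = (v, l)`, `l ≥ 1`, let `s⁻¹ y k = (w, r)`; `r + 1 = h k w`
would give `(y k).2 = 0` by (b); so `r + 1 < h k w` and `y k = (w, r + 1)` by (a). Take
`m = j - i : ℤ`. (`Homeomorph` is a group: `pow_succ'`, `zpow_natCast`, `zpow_neg`,
`Homeomorph.mul_apply`-like lemmas are `rfl`.) -/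
def OST_stmt : Prop :=
  ∀ (n : ℕ → ℕ) (h : ℕ → ℕ → ℕ) (M : ℕ → ℕ → ℕ → ℕ) (pr : ℕ → ℕ × ℕ → ℕ × ℕ), TSys n h M pr →
    ∀ s : ↥(Om n h pr) ≃ₜ ↥(Om n h pr), IsTow n h pr s →
      (∀ (x : ↥(Om n h pr)) (k : ℕ), (x.1 k).2 + 1 < h k (x.1 k).1 →
        (s x).1 k = ((x.1 k).1, (x.1 k).2 + 1)) ∧
      (∀ (x : ↥(Om n h pr)) (k : ℕ), (x.1 k).2 + 1 = h k (x.1 k).1 → ((s x).1 k).2 = 0) ∧
      (∀ (x : ↥(Om n h pr)) (k j : ℕ), j < h k (x.1 k).1 →
        ∃ m : ℤ, ((s ^ m) x).1 k = ((x.1 k).1, j))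

/-- **OMN**: the tower map is minimal.

PROOF. Let `x, y` be points and `U` open, `y ∈ U`; by CYL there is `k` such that `z k = y k` implies
`z ∈ U`. Let `x (k + 1) = (v', i')`, `y k = (v, i)`. By `cnt` and `three` there is `j < h (k + 1) v'` with
`pr k (v', j) = (v, i)`. By OST (c), level `k + 1`, there is `m` with `(s ^ m x) (k + 1) = (v', j)`, so
`(s ^ m x) k = pr k (v', j) = y k`, so `s ^ m x ∈ U`. (`dense_iff_inter_open`.) -/
def OMN_stmt : Prop :=
  ∀ (n : ℕ → ℕ) (h : ℕ → ℕ → ℕ) (M : ℕ → ℕ → ℕ → ℕ) (pr : ℕ → ℕ × ℕ → ℕ × ℕ), TSys n h M pr →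
    ∀ s : ↥(Om n h pr) ≃ₜ ↥(Om n h pr), IsTow n h pr s → IsMinimal s

/-- **FAC**: continuous integer valued functions depend on one symbol.

PROOF. `Om` is compact (OTP). For `x` let `U x = f ⁻¹' {f x}`, open (`ℤ` is discrete); by CYL there is
`k x` such that `y (k x) = x (k x)` implies `f y = f x`. The sets `{y | y (k x) = x (k x)}` are open;
finitely many, for `x ∈ t`, cover `Om`. Let `k = max` of the `k x`, `x ∈ t`. If `y k = z k` then
`y j = z j` for all `j ≤ k` (downward induction), `y` is in the set of some `x ∈ t`, and so is `z`, so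
`f y = f x = f z`. Define `F p = f y` if there is `y` with `y k = p` (choice), and `0` otherwise. -/
def FAC_stmt : Prop :=
  ∀ (n : ℕ → ℕ) (h : ℕ → ℕ → ℕ) (pr : ℕ → ℕ × ℕ → ℕ × ℕ) (f : C(↥(Om n h pr), ℤ)),
    ∃ (k : ℕ) (F : ℕ × ℕ → ℤ), ∀ x, f x = F (x.1 k)

/-! ## V. The dimension homomorphism -/

/-- **QLV**: the value does not depend on the level.

PROOF. By TSM, `∑ j, F (pr k (v', j)) = ∑ v, M k v' v * S v` with `S v = ∑ i, F (v, i)`. So the left
hand side is `∑ v', (∑ v, M k v' v * S v) • th (k + 1) v' = ∑ v, S v • ∑ v', M k v' v • th (k + 1) v'`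
(`Finset.sum_smul`, `Finset.sum_comm`) `= ∑ v, S v • th k v` by `th_eq`. -/
def QLV_stmt : Prop :=
  ∀ (H : Type) [AddCommGroup H] (P : H → Prop) (g : H) (n : ℕ → ℕ) (h : ℕ → ℕ → ℕ)
    (M : ℕ → ℕ → ℕ → ℕ) (pr : ℕ → ℕ × ℕ → ℕ × ℕ) (th : ℕ → ℕ → H), TSys n h M pr →
    THom P g n h M th → ∀ (k : ℕ) (F : ℕ × ℕ → ℤ),
      Qv n h th (k + 1) (fun p => F (pr k p)) = Qv n h th k F

/-- **QHM**: the homomorphism `Q`.

PROOF. (1) `Qv n h th k F` depends only on the values of `F` on the symbols of level `k`. (2) If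
`f x = F (x k)` for all `x`, then `f x = F (pr k (x (k + 1)))`, with the same value of `Qv` (QLV). So for
every `k' ≥ k` there is `F'` with `f x = F' (x k')` for all `x` and `Qv k' F' = Qv k F` (`Nat.le_induction`).
(3) If `f x = F (x k) = F' (x k')` for all `x`, then `Qv k F = Qv k' F'`: raise both to the level
`max k k'`; there the two functions agree on all symbols by OCC; use (1). (4) Define `Q f = Qv k F`
for the chosen `(k, F)` of FAC. (5) Additive: raise `f`, `f'` to a common level `k`; `f + f'` is given by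
`F + F'`, and `Qv` is additive in `F` (`Finset.sum_add_distrib`, `add_smul`). (`AddMonoidHom.mk'`.) -/
def QHM_stmt : Prop :=
  ∀ (H : Type) [AddCommGroup H] (P : H → Prop) (g : H) (n : ℕ → ℕ) (h : ℕ → ℕ → ℕ)
    (M : ℕ → ℕ → ℕ → ℕ) (pr : ℕ → ℕ × ℕ → ℕ × ℕ) (th : ℕ → ℕ → H), TSys n h M pr →
    THom P g n h M th → ∃ Q : C(↥(Om n h pr), ℤ) →+ H, IsQ n h pr th Q

/-- **QSF**: `Q (f ∘ s) = Q f`.

PROOF. FAC: `f x = F (x k)`. Then `f (s x) = F (nxt h pr k (x (k + 1)))`. So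
`Q (f ∘ s) = Qv (k + 1) (fun p => F (nxt h pr k p))` and
`Q f = Qv k F = Qv (k + 1) (fun p => F (pr k p))` (QLV). For `v' < n (k + 1)`, `h' = h (k + 1) v' ≥ 1`,
write `h' = r + 1`: `∑ j ∈ range h', F (nxt h pr k (v', j)) = ∑ j ∈ range r, F (pr k (v', j + 1)) + F (0, 0)`
(`Finset.sum_range_succ`) and `∑ j ∈ range h', F (pr k (v', j)) = ∑ j ∈ range r, F (pr k (v', j + 1)) + F (pr k (v', 0))`
(`Finset.sum_range_succ'`), equal by `bot`. -/
def QSF_stmt : Prop :=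
  ∀ (H : Type) [AddCommGroup H] (P : H → Prop) (g : H) (n : ℕ → ℕ) (h : ℕ → ℕ → ℕ)
    (M : ℕ → ℕ → ℕ → ℕ) (pr : ℕ → ℕ × ℕ → ℕ × ℕ) (th : ℕ → ℕ → H), TSys n h M pr →
    THom P g n h M th → ∀ (Q : C(↥(Om n h pr), ℤ) →+ H), IsQ n h pr th Q →
    ∀ s : ↥(Om n h pr) ≃ₜ ↥(Om n h pr), IsTow n h pr s →
    ∀ f : C(↥(Om n h pr), ℤ), Q (f.comp (s : C(↥(Om n h pr), ↥(Om n h pr)))) = Q f

/-- **QKR**: the kernel of `Q` consists of coboundaries.

PROOF. FAC: `f x = F (x k)`; `Q f = Qv k F = ∑ v, S v • th k v = 0`, `S v = ∑ i ∈ range (h k v), F (v, i)`.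
`kill` (with `z = S`): `∑ v, M k v' v * S v = 0` for `v' < n (k + 1)`, so by TSM
`∑ j ∈ range (h (k + 1) v'), F (pr k (v', j)) = 0`. Let `F' p = F (pr k p)`, `f x = F' (x (k + 1))`,
`G (v', i) = ∑ j ∈ range i, F' (v', j)`, `e x = G (x (k + 1))` (continuous: a function of a discrete
coordinate). Let `x (k + 1) = (v', i)`. If `i + 1 < h (k + 1) v'`: `(s x) (k + 1) = (v', i + 1)` by OST, and
`G (v', i + 1) - G (v', i) = F' (v', i)`. If `i + 1 = h (k + 1) v'`: `(s x) (k + 1) = (w, 0)` by OST,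
`G (w, 0) = 0`, and `G (v', i) + F' (v', i) = 0` is the vanishing of the total sum, so
`e (s x) - e x = - G (v', i) = F' (v', i) = f x`. -/
def QKR_stmt : Prop :=
  ∀ (H : Type) [AddCommGroup H] (P : H → Prop) (g : H) (n : ℕ → ℕ) (h : ℕ → ℕ → ℕ)
    (M : ℕ → ℕ → ℕ → ℕ) (pr : ℕ → ℕ × ℕ → ℕ × ℕ) (th : ℕ → ℕ → H), TSys n h M pr →
    THom P g n h M th → ∀ (Q : C(↥(Om n h pr), ℤ) →+ H), IsQ n h pr th Q →
    ∀ s : ↥(Om n h pr) ≃ₜ ↥(Om n h pr), IsTow n h pr s →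
    ∀ f : C(↥(Om n h pr), ℤ), Q f = 0 → ∃ e : C(↥(Om n h pr), ℤ), ∀ x, f x = e (s x) - e x

/-- **QPS**: unit, positive preimages, surjectivity, positivity of `Q`.

PROOF. `Q 1`: `k = 0`, `F = 1`: `Qv = ∑ v, h 0 v • th 0 v = g` (`unit`). Positive preimages: `P x`,
`x = ∑ v ∈ range (n k), c v • th k v` (`span`); `F (v, i) = if i = 0 then c v else 0`, `f x = F (x k)` (continuous);
`∑ i ∈ range (h k v), F (v, i) = c v` as `0 < h k v`; `0 ≤ f`. Surjective: `x : H`; `arch g (-x)`: `N` with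
`P (N • g + x)`; `N • g + x = Q f`; `x = Q (f - N • 1)`. Positivity: `0 ≤ f`, `f x = F (x k)` (FAC); for every
symbol `p` of level `k`, `0 ≤ F p` by OCC; so `S v = ∑ i, F (v, i) ≥ 0` for `v < n k`,
`Q f = ∑ v, (S v).toNat • th k v` (`Int.toNat_of_nonneg`, `natCast_zsmul`), and `SOG.sum_nsmul'`. -/
def QPS_stmt : Prop :=
  ∀ (H : Type) [AddCommGroup H] (P : H → Prop) (g : H), SOG P g → ∀ (n : ℕ → ℕ) (h : ℕ → ℕ → ℕ)
    (M : ℕ → ℕ → ℕ → ℕ) (pr : ℕ → ℕ × ℕ → ℕ × ℕ) (th : ℕ → ℕ → H), TSys n h M pr →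
    THom P g n h M th → ∀ (Q : C(↥(Om n h pr), ℤ) →+ H), IsQ n h pr th Q →
    Q 1 = g ∧ (∀ x, P x → ∃ f : C(↥(Om n h pr), ℤ), (∀ t, 0 ≤ f t) ∧ Q f = x) ∧
      Function.Surjective Q ∧ ∀ f : C(↥(Om n h pr), ℤ), (∀ t, 0 ≤ f t) → Q f = 0 ∨ P (Q f)

/-- **INV**: invariant functions of a minimal system are constant.

PROOF. `f ((s ^ m) x) = f x` for all `m : ℤ` (induction; for negative powers apply the hypothesis to
`(s⁻¹ ^ m) x`). If the space is empty the claim is trivial; let `x₀` be a point. The set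
`{y | f y = f x₀}` is closed and contains the orbit of `x₀`, which is dense
(`IsClosed.closure_subset_iff`, `Dense.closure_eq`). -/
def INV_stmt : Prop :=
  ∀ (X : Type) [TopologicalSpace X] (s : X ≃ₜ X), IsMinimal s → ∀ f : C(X, ℤ),
    (∀ x, f (s x) = f x) → ∃ c : ℤ, ∀ x, f x = c

/-- **SYS**: the system of a countable simple ordered group (assembly: helper72). -/
def SYS_stmt : Prop :=
  ∀ (H : Type) [AddCommGroup H] [Countable H] (P : H → Prop) (g : H), SOG P g →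
    ∃ (Ω : Type) (_ : TopologicalSpace Ω) (_ : CompactSpace Ω)
      (_ : TopologicalSpace.MetrizableSpace Ω) (_ : TotallyDisconnectedSpace Ω) (_ : Infinite Ω)
      (s : Ω ≃ₜ Ω) (Q : C(Ω, ℤ) →+ H), IsMinimal s ∧ IsDim P g s Q

/-! ## VI. States -/

/-- **DEN**: approximation by integer valued functions.

PROOF. For `x` the set `{y | |f y - f x| < 1 / 2}` is open, so it contains a clopen set `V x ∋ x`
(compact Hausdorff totally disconnected: `compact_exists_isClopen_in_isOpen`). Finitely many `V x`, `x ∈ t`,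
cover `Ω`. Claim, by induction on the finite set `t`: there is `f' : C(Ω, ℤ)` with `|f y - f' y| ≤ 1` for all
`y` in the union of the `V x`, `x ∈ t`. Empty: `f' = 0`. Insert `a t`: `f' y = round (f a)` if `y ∈ V a`,
and the old value otherwise: continuous because `V a` is clopen (e.g. `Continuous.piecewise`/`Continuous.if`
with empty frontier, `IsClopen.frontier_eq`); `|f y - round (f a)| ≤ 1 / 2 + 1 / 2` (`abs_sub_round`). -/
def DEN_stmt : Prop :=
  ∀ (Ω : Type) [TopologicalSpace Ω] [CompactSpace Ω] [T2Space Ω] [TotallyDisconnectedSpace Ω]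
    (f : C(Ω, ℝ)), ∃ f' : C(Ω, ℤ), ∀ x, |f x - (f' x : ℝ)| ≤ 1

/-- **EXR**: extension of a positive homomorphism from integer valued to real valued functions.

PROOF. Write `u = R 1 : C(Z, ℝ)`, `C = ‖u‖`. (1) If `a : C(Ω, ℤ)` and `|a x| ≤ c` for all `x` (`c : ℕ`), then
`|R a t| ≤ c * u t ≤ c * C`: `c • 1 - a ≥ 0` and `c • 1 + a ≥ 0` give `0 ≤ R (c • 1 ∓ a) t`. (2) By DEN choose for
`f : C(Ω, ℝ)` and `n : ℕ` a function `f_n : C(Ω, ℤ)` with `|(n + 1) f x - f_n x| ≤ 1`. Put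
`a_n = (n + 1)⁻¹ • R f_n ∈ C(Z, ℝ)`. `|(m + 1) f_n - (n + 1) f_m| ≤ (m + 1) + (n + 1)`, so by (1)
`‖a_n - a_m‖ ≤ (1 / (n + 1) + 1 / (m + 1)) C`: Cauchy; let `Φ f` be the limit (`C(Z, ℝ)` is complete), with
`‖Φ f - a_n‖ ≤ 2 C / (n + 1)`. More generally (3): if `b_n : C(Ω, ℤ)`, `|(n + 1) f x - b_n x| ≤ c` for all `n`, `x`
(`c : ℕ` fixed), then `(n + 1)⁻¹ • R b_n → Φ f` (difference to `a_n`: `≤ (c + 1) C / (n + 1)`). (4) Additive: for
`f + f'` take `b_n = f_n + f'_n`, `c = 2`. (5) `Φ (intR f) = R f`: `b_n = (n + 1) • f`, `c = 0`. (6) If `0 ≤ f`,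
then `f_n ≥ -1`, `R f_n + u ≥ 0`, `a_n t ≥ - C / (n + 1)`, so `Φ f t ≥ 0`. (7) If `|f x| ≤ r` for all `x`, then
`|f_n x| ≤ ⌈(n + 1) r + 1⌉`, so `‖a_n‖ ≤ ((n + 1) r + 2) C / (n + 1)`, so `‖Φ f‖ ≤ r C`: `Φ` is continuous
(an additive map, continuous at `0`: `continuous_of_continuousAt_zero`, or `AddMonoidHomClass.continuous_of_bound`), and
an additive continuous map is `ℝ`-linear: `AddMonoidHom.toRealLinearMap`. -/
def EXR_stmt : Prop :=
  ∀ (Ω : Type) [TopologicalSpace Ω] [CompactSpace Ω] [T2Space Ω] [TotallyDisconnectedSpace Ω]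
    (Z : Type) [TopologicalSpace Z] [CompactSpace Z] (R : C(Ω, ℤ) →+ C(Z, ℝ)),
    (∀ f : C(Ω, ℤ), (∀ x, 0 ≤ f x) → ∀ t, 0 ≤ R f t) →
    ∃ Φ : C(Ω, ℝ) →ₗ[ℝ] C(Z, ℝ), (∀ f : C(Ω, ℤ), Φ (intR f) = R f) ∧
      ∀ f : C(Ω, ℝ), (∀ x, 0 ≤ f x) → ∀ t, 0 ≤ Φ f t

/-- **PTE**: a state of `H` is the value at a point of `K`.

PROOF. `CompactSpace K`, `Nonempty K`. Suppose not. (1) For every `t : K` there is `x` with
`ρ x t ≠ σ x`; replacing `x` by `-x`: `ρ x t < σ x`. The sets `{t | ρ x t < σ x}` (`x : H`) are an open cover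
of `K`; take a finite subcover `x ∈ F` (`F : Finset H`). (2) Consider `Y t = (σ x - ρ x t)_{x ∈ F} ∈ (F → ℝ)`
(functions on the finite type `↥F`); `C = range Y` is compact (image of a compact space under a continuous
map) and convex (`K` is convex and each `ρ x` is affine: for `t, t' ∈ K`, `a + b = 1` the point
`a t + b t'` is in `K` and `Y (a t + b t') = a Y t + b Y t'`), and `0 ∉ C`, because each `Y t` has a positive
coordinate. Hahn-Banach (`geometric_hahn_banach_point_closed`, `geometric_hahn_banach_compact_closed` or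
`geometric_hahn_banach_closed_point`): a linear functional `c` with `0 < δ ≤ ∑ x, c x * Y t x` for all `t`
(`c x` = the value at `Pi.single x 1`). (3) Let `B ≥ ∑ x, |Y t x|` for all `t`, `N : ℕ` with `N δ > B`,
`m x = ⌊N c x⌋`: `|m x - N c x| ≤ 1`, so `∑ m x * Y t x ≥ N δ - B > 0`. So `y = ∑ x, m x • x : H` satisfies
`ρ y t < σ y` for all `t`. (4) By compactness `ρ y t ≤ σ y - δ'` with `δ' > 0`; `q : ℕ` with `q δ' ≥ 2`, `q ≥ 1`,
`p = ⌈q * σ y⌉ - 1 : ℤ`, so `p < q σ y ≤ p + 1`. Then `q ρ y t ≤ q σ y - 2 < p`, so `p • g - q • y ≫ 0`, so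
`0 ≤ σ (p • g - q • y) = p - q σ y < 0`, a contradiction. -/
def PTE_stmt : Prop :=
  ∀ (E : Type) [AddCommGroup E] [Module ℝ E] [TopologicalSpace E] (K : Set E) (H : Type)
    [AddCommGroup H] (ρ : H →+ C(K, ℝ)) (g : H), KD K ρ g → ∀ σ : H →+ ℝ, σ g = 1 →
    (∀ x, (∀ t, 0 < ρ x t) → 0 ≤ σ x) → ∃ t : K, ∀ x, σ x = ρ x t

/-- **SPK**: `H` separates the points of `K`.

PROOF. If `t ≠ t'`, Hahn-Banach (`SeparatingDual.exists_separating_of_ne` or
`geometric_hahn_banach_point_point`) gives a continuous linear `c : E → ℝ` with `c t ≠ c t'`; its restriction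
`a` to `K` is a continuous affine function, `|a t - a t'| = 3 ε > 0`; density: `x` with `|ρ x - a| < ε`, so
`ρ x t ≠ ρ x t'`. -/
def SPK_stmt : Prop :=
  ∀ (E : Type) [AddCommGroup E] [Module ℝ E] [TopologicalSpace E] [IsTopologicalAddGroup E]
    [ContinuousSMul ℝ E] [LocallyConvexSpace ℝ E] [T2Space E] (K : Set E) (H : Type)
    [AddCommGroup H] (ρ : H →+ C(K, ℝ)) (g : H), KD K ρ g → ∀ t t' : K,
    (∀ x, ρ x t = ρ x t') → t = t'

/-- **AFL**: a limit of affine functions is affine, in the form needed: `Φ` as in EXR for `R = ρ ∘ Q` has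
affine values.

PROOF. Let `f : C(Ω, ℝ)`. For every `n ≥ 1` DEN (for `n • f`) gives `f' : C(Ω, ℤ)` with `|n f x - f' x| ≤ 1`; by
positivity and linearity of `Φ` (`-1 ≤ n f - f' ≤ 1`): `|n Φ f t - R f' t| ≤ Φ 1 t = R 1 t ≤ C`. So
`|Φ f t - (1 / n) R f' t| ≤ C / n`. For `z = s x + t y` (convex combination in `K`), with the affine
`b = (1 / n) R f'`: `|Φ f z - s Φ f x - t Φ f y| ≤ |b z - s b x - t b y| + 2 C / n = 2 C / n` for all `n`, so
it is `0`. -/
def AFL_stmt : Prop :=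
  ∀ (Ω : Type) [TopologicalSpace Ω] [CompactSpace Ω] [T2Space Ω] [TotallyDisconnectedSpace Ω]
    (E : Type) [AddCommGroup E] [Module ℝ E] [TopologicalSpace E] (K : Set E), IsCompact K →
    ∀ R : C(Ω, ℤ) →+ C(K, ℝ), (∀ f, IsAff (R f)) → ∀ Φ : C(Ω, ℝ) →ₗ[ℝ] C(K, ℝ),
    (∀ f : C(Ω, ℤ), Φ (intR f) = R f) → (∀ f : C(Ω, ℝ), (∀ x, 0 ≤ f x) → ∀ t, 0 ≤ Φ f t) →
    ∀ f, IsAff (Φ f)

/-- **UNQ**: a state is determined by its values on integer valued functions.

PROOF. For `n ≥ 1` DEN gives `f'` with `|n f x - f' x| ≤ 1`; positivity: `|n φ f - φ (intR f')| ≤ φ 1 = 1`, and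
the same for `ψ`; so `|φ f - ψ f| ≤ 2 / n` for all `n`. -/
def UNQ_stmt : Prop :=
  ∀ (Ω : Type) [TopologicalSpace Ω] [CompactSpace Ω] [T2Space Ω] [TotallyDisconnectedSpace Ω]
    (φ ψ : C(Ω, ℝ) →ₗ[ℝ] ℝ), (∀ f : C(Ω, ℝ), (∀ x, 0 ≤ f x) → 0 ≤ φ f) →
    (∀ f : C(Ω, ℝ), (∀ x, 0 ≤ f x) → 0 ≤ ψ f) → φ 1 = 1 → ψ 1 = 1 →
    (∀ f : C(Ω, ℤ), φ (intR f) = ψ (intR f)) → φ = ψ

/-- **STA**: the invariant states of the system are the points of `K`.

PROOF. `CompactSpace K`. `R = ρ ∘ Q : C(Ω, ℤ) →+ C(K, ℝ)`; positive: `0 ≤ f` gives `Q f = 0` or `Q f ≫ 0`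
(`nonneg`). EXR gives `Φ`; put `T t f = Φ f t` (linear). Unit: `1 = intR 1`, `R 1 = ρ g = 1`. Values on
`intR f`: `R f t = ρ (Q f) t`. Affine and continuous in `t`: `a = Φ f`, AFL. Invariance: `T t` and
`f ↦ T t (f ∘ s)` are states with the same values on integer valued functions: `Q (f ∘ s) = Q f` because
`f ∘ s - f` is a coboundary (`cob` with `e = f`); UNQ. Injective: if `T t = T t'`, then `ρ (Q f) t = ρ (Q f) t'` for
all `f`, `Q` is onto, SPK. Surjective: let `φ` be an invariant state. `ψ : C(Ω, ℤ) →+ ℝ`, `ψ f = φ (intR f)`,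
vanishes on `ker Q` (`f = e ∘ s - e`: `intR f = (intR e) ∘ s - intR e`). So there is `σ : H →+ ℝ` with
`σ (Q f) = φ (intR f)` (`AddMonoidHom.liftOfSurjective`, or `QuotientAddGroup` lift). `σ g = 1`; `x ≫ 0`:
`x = Q f` with `0 ≤ f`, so `σ x ≥ 0`. PTE: `t` with `σ x = ρ x t`. `T t = φ` by UNQ. -/
def STA_stmt : Prop :=
  ∀ (E : Type) [AddCommGroup E] [Module ℝ E] [TopologicalSpace E] [IsTopologicalAddGroup E]
    [ContinuousSMul ℝ E] [LocallyConvexSpace ℝ E] [T2Space E] (K : Set E) (H : Type)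
    [AddCommGroup H] (ρ : H →+ C(K, ℝ)) (g : H), KD K ρ g →
    ∀ (Ω : Type) [TopologicalSpace Ω] [CompactSpace Ω] [T2Space Ω] [TotallyDisconnectedSpace Ω]
    (s : Ω ≃ₜ Ω) (Q : C(Ω, ℤ) →+ H), IsDim (KP K ρ) g s Q →
    ∃ T : K → C(Ω, ℝ) →ₗ[ℝ] ℝ, (∀ t, IsInvSt s (T t)) ∧
      (∀ (f : C(Ω, ℤ)) (t : K), T t (intR f) = ρ (Q f) t) ∧
      (∀ f : C(Ω, ℝ), ∃ a : C(K, ℝ), IsAff a ∧ ∀ t, a t = T t f) ∧
      Function.Injective T ∧ ∀ φ, IsInvSt s φ → ∃ t, T t = φ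

/-- **CNT**: THE RESULT of the block (assembly: helper72): for every countable torsion free `H` with a
dense `ρ : H → Aff(K)`, `ρ g = 1`, `K` a simplex, there is a Cantor minimal system with dimension
group `H` and invariant states `K`. -/
def CNT_stmt : Prop :=
  ∀ (E : Type) [AddCommGroup E] [Module ℝ E] [TopologicalSpace E] [IsTopologicalAddGroup E]
    [ContinuousSMul ℝ E] [LocallyConvexSpace ℝ E] [T2Space E] (K : Set E) (_ : IsSimplex K)
    (H : Type) [AddCommGroup H] [Countable H] (ρ : H →+ C(K, ℝ)) (g : H), KD K ρ g →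
    (∀ (n : ℕ) (x : H), 1 ≤ n → n • x = 0 → x = 0) →
    ∃ (Ω : Type) (_ : TopologicalSpace Ω) (_ : CompactSpace Ω)
      (_ : TopologicalSpace.MetrizableSpace Ω) (_ : TotallyDisconnectedSpace Ω) (_ : Infinite Ω)
      (s : Ω ≃ₜ Ω) (Q : C(Ω, ℤ) →+ H) (T : K → C(Ω, ℝ) →ₗ[ℝ] ℝ), IsMinimal s ∧
      IsDim (KP K ρ) g s Q ∧
      (∀ f : C(Ω, ℤ), (∀ x, f (s x) = f x) → ∃ c : ℤ, ∀ x, f x = c) ∧
      (∀ t, IsInvSt s (T t)) ∧
      (∀ (f : C(Ω, ℤ)) (t : K), T t (intR f) = ρ (Q f) t) ∧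
      (∀ f : C(Ω, ℝ), ∃ a : C(K, ℝ), IsAff a ∧ ∀ t, a t = T t f) ∧
      Function.Injective T ∧ ∀ φ, IsInvSt s φ → ∃ t, T t = φ

end Pool.Agent.PVH
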