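import Pool.Agent.helper72.PV.SpecH

/-!
# Project pv (MP_376aaf_an), block H, row AFL
-/

set_option autoImplicit false

open Finset

namespace Pool.Agent.PVH

open Pool.Agent.PV Pool.Agent.CZ

theorem AFL (hDEN : DEN_stmt) : AFL_stmt := by
  intro Ω _ _ _ _ E _ _ _ K hK R hR Φ h1 h2 f
  have : CompactSpace K := isCompact_iff_compactSpace.mp hK
  have hone : intR (1 : C(Ω, ℤ)) = 1 := by
    ext x
    simp [intR]
  have key : ∀ n : ℕ, 1 ≤ n → ∃ b : C(K, ℝ), IsAff b ∧ ∀ u, |Φ f u - b u| ≤ ‖R 1‖ / n := by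
    intro n hn
    have hn0 : (0 : ℝ) < n := by exact_mod_cast hn
    obtain ⟨f', hf'⟩ := hDEN Ω ((n : ℝ) • f)
    refine ⟨(1 / (n : ℝ)) • R f', ⟨fun x y z s t hs ht hst hz => ?_⟩, fun u => ?_⟩
    · have h3 := (hR f').aff x y z s t hs ht hst hz
      simp only [ContinuousMap.smul_apply, smul_eq_mul]
      rw [h3]
      ring
    · have h3 : 0 ≤ Φ (1 - ((n : ℝ) • f - intR f')) u := by
        refine h2 _ (fun x => ?_) u
        have h4 := (abs_le.mp (hf' x)).2
        simp only [ContinuousMap.sub_apply, ContinuousMap.one_apply]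
        have h5 : (intR f') x = (f' x : ℝ) := rfl
        rw [h5]
        linarith
      have h4 : 0 ≤ Φ (1 + ((n : ℝ) • f - intR f')) u := by
        refine h2 _ (fun x => ?_) u
        have h4 := (abs_le.mp (hf' x)).1
        simp only [ContinuousMap.sub_apply, ContinuousMap.one_apply, ContinuousMap.add_apply]
        have h5 : (intR f') x = (f' x : ℝ) := rfl
        rw [h5]
        linarith
      have h5 : Φ (1 - ((n : ℝ) • f - intR f')) u = R 1 u - (n * Φ f u - R f' u) := by
        rw [map_sub, map_sub, map_smul, h1, ← hone, h1]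
        simp
      have h6 : Φ (1 + ((n : ℝ) • f - intR f')) u = R 1 u + (n * Φ f u - R f' u) := by
        rw [map_add, map_sub, map_smul, h1, ← hone, h1]
        simp
      rw [h5] at h3
      rw [h6] at h4
      have h7 : R 1 u ≤ ‖R 1‖ := (le_abs_self _).trans (ContinuousMap.norm_coe_le_norm (R 1) u)
      have h8 : Φ f u - ((1 / (n : ℝ)) • R f') u = (n * Φ f u - R f' u) / n := by
        simp only [ContinuousMap.smul_apply, smul_eq_mul]
        field_simp
      rw [h8, abs_div, abs_of_pos hn0]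
      refine div_le_div_of_nonneg_right ?_ hn0.le
      rw [abs_le]
      constructor <;> linarith
  refine ⟨fun x y z s t hs ht hst hz => ?_⟩
  by_contra hne
  have hD : 0 < |Φ f z - (s * Φ f x + t * Φ f y)| := abs_pos.mpr (sub_ne_zero.mpr hne)
  obtain ⟨n, hn⟩ := exists_nat_gt (2 * ‖R 1‖ / |Φ f z - (s * Φ f x + t * Φ f y)|)
  obtain ⟨b, hb, hb2⟩ := key (n + 1) (by omega)
  have h3 := hb.aff x y z s t hs ht hst hz
  have h4 := abs_le.mp (hb2 x)
  have h5 := abs_le.mp (hb2 y)
  have h6 := abs_le.mp (hb2 z)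
  have hN : (0 : ℝ) < ((n + 1 : ℕ) : ℝ) := by positivity
  have h7 : |Φ f z - (s * Φ f x + t * Φ f y)| ≤ 2 * (‖R 1‖ / ((n + 1 : ℕ) : ℝ)) := by
    rw [abs_le]
    constructor
    · nlinarith [mul_le_mul_of_nonneg_left h4.1 hs, mul_le_mul_of_nonneg_left h4.2 hs,
        mul_le_mul_of_nonneg_left h5.1 ht, mul_le_mul_of_nonneg_left h5.2 ht]
    · nlinarith [mul_le_mul_of_nonneg_left h4.1 hs, mul_le_mul_of_nonneg_left h4.2 hs,
        mul_le_mul_of_nonneg_left h5.1 ht, mul_le_mul_of_nonneg_left h5.2 ht]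
  rw [div_lt_iff₀ hD] at hn
  rw [← mul_div_assoc, le_div_iff₀ hN] at h7
  push_cast at h7
  nlinarith

end Pool.Agent.PVH
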