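import Pool.Agent.helper72.PV.SpecH

/-!
# Project pv (MP_376aaf_an), block H, row EXR: extension of positive homomorphisms
-/

set_option autoImplicit false

open Finset

namespace Pool.Agent.PVH

open Pool.Agent.PV Pool.Agent.CZ Filter Topology

theorem EXR_nsZ {X : Type} [TopologicalSpace X] (c : ℕ) (f : C(X, ℤ)) (x : X) :
    (c • f) x = (c : ℤ) * f x := by
  change c • f x = _
  rw [nsmul_eq_mul]

theorem EXR_nsR {X : Type} [TopologicalSpace X] (c : ℕ) (f : C(X, ℝ)) (x : X) :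
    (c • f) x = (c : ℝ) * f x := by
  change c • f x = _
  rw [nsmul_eq_mul]

section

variable {Ω : Type} [TopologicalSpace Ω] [CompactSpace Ω] {Z : Type} [TopologicalSpace Z]
  [CompactSpace Z] (R : C(Ω, ℤ) →+ C(Z, ℝ))
  (hR : ∀ f : C(Ω, ℤ), (∀ x, 0 ≤ f x) → ∀ t, 0 ≤ R f t)

include hR

theorem EXR_bound (a : C(Ω, ℤ)) (c : ℕ) (ha : ∀ x, |a x| ≤ (c : ℤ)) : ‖R a‖ ≤ c * ‖R 1‖ := by
  rw [ContinuousMap.norm_le _ (by positivity)]
  intro t
  have h2 := hR (c • 1 - a) (fun x => by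
    have := (abs_le.mp (ha x)).2
    rw [ContinuousMap.sub_apply, EXR_nsZ, ContinuousMap.one_apply, mul_one]
    linarith) t
  have h3 := hR (c • 1 + a) (fun x => by
    have := (abs_le.mp (ha x)).1
    rw [ContinuousMap.add_apply, EXR_nsZ, ContinuousMap.one_apply, mul_one]
    linarith) t
  rw [map_sub, map_nsmul, ContinuousMap.sub_apply, EXR_nsR] at h2
  rw [map_add, map_nsmul, ContinuousMap.add_apply, EXR_nsR] at h3
  have h4 : R 1 t ≤ ‖R 1‖ := (le_abs_self _).trans (ContinuousMap.norm_coe_le_norm (R 1) t)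
  have h5 : (c : ℝ) * R 1 t ≤ c * ‖R 1‖ := mul_le_mul_of_nonneg_left h4 (Nat.cast_nonneg c)
  rw [Real.norm_eq_abs, abs_le]
  constructor <;> linarith

theorem EXR_diff (f : C(Ω, ℝ)) (b b' : C(Ω, ℤ)) (n m c c' : ℕ)
    (hb : ∀ x, |((n : ℝ) + 1) * f x - (b x : ℝ)| ≤ c)
    (hb' : ∀ x, |((m : ℝ) + 1) * f x - (b' x : ℝ)| ≤ c') :
    ‖((n : ℝ) + 1)⁻¹ • R b - ((m : ℝ) + 1)⁻¹ • R b'‖ ≤
      (c / ((n : ℝ) + 1) + c' / ((m : ℝ) + 1)) * ‖R 1‖ := by
  have hn : (0 : ℝ) < (n : ℝ) + 1 := by positivity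
  have hm : (0 : ℝ) < (m : ℝ) + 1 := by positivity
  have h1 := EXR_bound R hR ((m + 1) • b - (n + 1) • b') ((m + 1) * c + (n + 1) * c') (by
    intro x
    have h2 := abs_le.mp (hb x)
    have h3 := abs_le.mp (hb' x)
    have h4 : |((((m + 1) • b - (n + 1) • b') x : ℤ) : ℝ)| ≤
        (((m + 1) * c + (n + 1) * c' : ℕ) : ℝ) := by
      rw [ContinuousMap.sub_apply, EXR_nsZ, EXR_nsZ]
      push_cast
      rw [abs_le]
      constructor
      · nlinarith [mul_le_mul_of_nonneg_left h2.1 hm.le, mul_le_mul_of_nonneg_left h2.2 hm.le,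
          mul_le_mul_of_nonneg_left h3.1 hn.le, mul_le_mul_of_nonneg_left h3.2 hn.le]
      · nlinarith [mul_le_mul_of_nonneg_left h2.1 hm.le, mul_le_mul_of_nonneg_left h2.2 hm.le,
          mul_le_mul_of_nonneg_left h3.1 hn.le, mul_le_mul_of_nonneg_left h3.2 hn.le]
    exact_mod_cast h4)
  rw [map_sub, map_nsmul, map_nsmul] at h1
  have h5 : ((n : ℝ) + 1)⁻¹ • R b - ((m : ℝ) + 1)⁻¹ • R b' =
      (((n : ℝ) + 1)⁻¹ * ((m : ℝ) + 1)⁻¹) • ((m + 1) • R b - (n + 1) • R b') := by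
    ext t
    rw [ContinuousMap.sub_apply, ContinuousMap.smul_apply, ContinuousMap.smul_apply,
      ContinuousMap.smul_apply, ContinuousMap.sub_apply, EXR_nsR, EXR_nsR]
    simp only [smul_eq_mul]
    push_cast
    field_simp
  rw [h5, norm_smul, Real.norm_of_nonneg (by positivity)]
  calc ((n : ℝ) + 1)⁻¹ * ((m : ℝ) + 1)⁻¹ * ‖(m + 1) • R b - (n + 1) • R b'‖
      ≤ ((n : ℝ) + 1)⁻¹ * ((m : ℝ) + 1)⁻¹ * ((((m + 1) * c + (n + 1) * c' : ℕ) : ℝ) * ‖R 1‖) :=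
        mul_le_mul_of_nonneg_left h1 (by positivity)
    _ = (c / ((n : ℝ) + 1) + c' / ((m : ℝ) + 1)) * ‖R 1‖ := by
        push_cast
        field_simp

end

theorem EXR_zero (C : ℝ) : Tendsto (fun n : ℕ => C / ((n : ℝ) + 1)) atTop (𝓝 0) := by
  have h1 := tendsto_one_div_add_atTop_nhds_zero_nat (𝕜 := ℝ)
  have h2 := h1.const_mul C
  rw [mul_zero] at h2
  refine h2.congr fun n => ?_
  rw [mul_one_div]

theorem EXR (hDEN : DEN_stmt) : EXR_stmt := by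
  intro Ω _ _ _ _ Z _ _ R hR
  choose D hD using hDEN Ω
  let F : C(Ω, ℝ) → ℕ → C(Ω, ℤ) := fun f n => D (((n : ℝ) + 1) • f)
  have hF : ∀ (f : C(Ω, ℝ)) (n : ℕ) (x : Ω), |((n : ℝ) + 1) * f x - (F f n x : ℝ)| ≤ (1 : ℕ) := by
    intro f n x
    have := hD (((n : ℝ) + 1) • f) x
    simpa using this
  let a : C(Ω, ℝ) → ℕ → C(Z, ℝ) := fun f n => ((n : ℝ) + 1)⁻¹ • R (F f n)
  have hlim : ∀ f, ∃ φ, Tendsto (a f) atTop (𝓝 φ) := by
    intro f
    refine cauchySeq_tendsto_of_complete (cauchySeq_of_le_tendsto_0 (fun N => 2 * ‖R 1‖ / ((N : ℝ) + 1))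
      ?_ (EXR_zero _))
    intro n m N hn hm
    rw [dist_eq_norm]
    refine (EXR_diff R hR f _ _ n m 1 1 (hF f n) (hF f m)).trans ?_
    have hN : (0 : ℝ) < (N : ℝ) + 1 := by positivity
    have h1 : ((1 : ℕ) : ℝ) / ((n : ℝ) + 1) ≤ 1 / ((N : ℝ) + 1) := by
      rw [Nat.cast_one]
      exact one_div_le_one_div_of_le hN (by
        have : (N : ℝ) ≤ n := by exact_mod_cast hn
        linarith)
    have h2 : ((1 : ℕ) : ℝ) / ((m : ℝ) + 1) ≤ 1 / ((N : ℝ) + 1) := by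
      rw [Nat.cast_one]
      exact one_div_le_one_div_of_le hN (by
        have : (N : ℝ) ≤ m := by exact_mod_cast hm
        linarith)
    calc (((1 : ℕ) : ℝ) / ((n : ℝ) + 1) + ((1 : ℕ) : ℝ) / ((m : ℝ) + 1)) * ‖R 1‖
        ≤ (1 / ((N : ℝ) + 1) + 1 / ((N : ℝ) + 1)) * ‖R 1‖ :=
          mul_le_mul_of_nonneg_right (add_le_add h1 h2) (norm_nonneg _)
      _ = 2 * ‖R 1‖ / ((N : ℝ) + 1) := by ring
  choose Φ hΦ using hlim
  have h3 : ∀ (f : C(Ω, ℝ)) (b : ℕ → C(Ω, ℤ)) (c : ℕ),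
      (∀ (n : ℕ) (x : Ω), |((n : ℝ) + 1) * f x - (b n x : ℝ)| ≤ c) →
      Tendsto (fun n : ℕ => ((n : ℝ) + 1)⁻¹ • R (b n)) atTop (𝓝 (Φ f)) := by
    intro f b c hb
    have h4 : Tendsto (fun n : ℕ => ((n : ℝ) + 1)⁻¹ • R (b n) - a f n) atTop (𝓝 0) := by
      rw [tendsto_zero_iff_norm_tendsto_zero]
      refine squeeze_zero (fun _ => norm_nonneg _) (fun n => ?_) (EXR_zero ((c + 1) * ‖R 1‖))
      refine (EXR_diff R hR f _ _ n n c 1 (hb n) (hF f n)).trans (le_of_eq ?_)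
      push_cast
      ring
    have h5 := h4.add (hΦ f)
    rw [zero_add] at h5
    exact h5.congr fun n => sub_add_cancel _ _
  have hadd : ∀ f f', Φ (f + f') = Φ f + Φ f' := by
    intro f f'
    have h4 := h3 (f + f') (fun n => F f n + F f' n) 2 (by
      intro n x
      have h5 := abs_le.mp (hF f n x)
      have h6 := abs_le.mp (hF f' n x)
      simp only [ContinuousMap.add_apply]
      push_cast at h5 h6 ⊢
      rw [abs_le]
      constructor <;> linarith)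
    have h5 := (hΦ f).add (hΦ f')
    refine tendsto_nhds_unique h4 (h5.congr fun n => ?_)
    simp only [map_add, smul_add]
    rfl
  have hint : ∀ f : C(Ω, ℤ), Φ (intR f) = R f := by
    intro f
    have h4 := h3 (intR f) (fun n => (n + 1) • f) 0 (by
      intro n x
      have h5 : (intR f) x = (f x : ℝ) := rfl
      rw [h5, EXR_nsZ]
      simp)
    refine tendsto_nhds_unique h4 ((tendsto_const_nhds (x := R f)).congr fun n => ?_)
    have hn : ((n : ℝ) + 1) ≠ 0 := by positivity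
    ext t
    rw [map_nsmul, ContinuousMap.smul_apply, EXR_nsR, smul_eq_mul]
    push_cast
    field_simp
  have hpos : ∀ f : C(Ω, ℝ), (∀ x, 0 ≤ f x) → ∀ t, 0 ≤ Φ f t := by
    intro f hf t
    have h4 : Tendsto (fun n => a f n t) atTop (𝓝 (Φ f t)) :=
      ((continuous_eval_const t).tendsto (Φ f)).comp (hΦ f)
    have h5 := (EXR_zero ‖R 1‖).neg
    rw [neg_zero] at h5
    refine le_of_tendsto_of_tendsto' h5 h4 fun n => ?_
    have hn : (0 : ℝ) < (n : ℝ) + 1 := by positivity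
    have h6 := hR (F f n + 1) (fun x => by
      have h7 := (abs_le.mp (hF f n x)).2
      have h8 : (0 : ℝ) ≤ ((n : ℝ) + 1) * f x := mul_nonneg hn.le (hf x)
      have h9 : (0 : ℝ) ≤ (((F f n + 1) x : ℤ) : ℝ) := by
        simp only [ContinuousMap.add_apply, ContinuousMap.one_apply]
        push_cast at h7 ⊢
        linarith
      exact_mod_cast h9) t
    rw [map_add, ContinuousMap.add_apply] at h6
    have h7 : R 1 t ≤ ‖R 1‖ := (le_abs_self _).trans (ContinuousMap.norm_coe_le_norm (R 1) t)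
    change -(‖R 1‖ / ((n : ℝ) + 1)) ≤ ((n : ℝ) + 1)⁻¹ * R (F f n) t
    rw [← neg_div, div_eq_inv_mul]
    exact mul_le_mul_of_nonneg_left (by linarith) (by positivity)
  have hbd : ∀ f : C(Ω, ℝ), ‖Φ f‖ ≤ ‖R 1‖ * ‖f‖ := by
    intro f
    have h4 : Tendsto (fun n => ‖a f n‖) atTop (𝓝 ‖Φ f‖) := (hΦ f).norm
    have h5 : Tendsto (fun n : ℕ => ‖R 1‖ * ‖f‖ + 2 * ‖R 1‖ / ((n : ℝ) + 1)) atTop
        (𝓝 (‖R 1‖ * ‖f‖ + 0)) := tendsto_const_nhds.add (EXR_zero _)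
    rw [add_zero] at h5
    refine le_of_tendsto_of_tendsto' h4 h5 fun n => ?_
    have hn : (0 : ℝ) < (n : ℝ) + 1 := by positivity
    have h6 := EXR_bound R hR (F f n) (⌈((n : ℝ) + 1) * ‖f‖ + 1⌉₊) (by
      intro x
      have h7 := abs_le.mp (hF f n x)
      have h8 := abs_le.mp (ContinuousMap.norm_coe_le_norm f x)
      have h9 : |((F f n x : ℤ) : ℝ)| ≤ ((⌈((n : ℝ) + 1) * ‖f‖ + 1⌉₊ : ℕ) : ℝ) := by
        refine le_trans ?_ (Nat.le_ceil _)
        push_cast at h7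
        rw [abs_le]
        constructor
        · nlinarith [mul_le_mul_of_nonneg_left h8.1 hn.le, mul_le_mul_of_nonneg_left h8.2 hn.le]
        · nlinarith [mul_le_mul_of_nonneg_left h8.1 hn.le, mul_le_mul_of_nonneg_left h8.2 hn.le]
      exact_mod_cast h9)
    have h7 : ((⌈((n : ℝ) + 1) * ‖f‖ + 1⌉₊ : ℕ) : ℝ) ≤ ((n : ℝ) + 1) * ‖f‖ + 2 := by
      have := Nat.ceil_lt_add_one (a := ((n : ℝ) + 1) * ‖f‖ + 1) (by positivity)
      linarith
    change ‖((n : ℝ) + 1)⁻¹ • R (F f n)‖ ≤ _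
    rw [norm_smul, Real.norm_of_nonneg (by positivity)]
    calc ((n : ℝ) + 1)⁻¹ * ‖R (F f n)‖
        ≤ ((n : ℝ) + 1)⁻¹ * ((((n : ℝ) + 1) * ‖f‖ + 2) * ‖R 1‖) :=
          mul_le_mul_of_nonneg_left (h6.trans (mul_le_mul_of_nonneg_right h7 (norm_nonneg _)))
            (by positivity)
      _ = ‖R 1‖ * ‖f‖ + 2 * ‖R 1‖ / ((n : ℝ) + 1) := by
          field_simp
  let Φ' : C(Ω, ℝ) →+ C(Z, ℝ) := AddMonoidHom.mk' Φ hadd
  have hcont : Continuous Φ' := AddMonoidHomClass.continuous_of_bound Φ' ‖R 1‖ hbd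
  exact ⟨(Φ'.toRealLinearMap hcont : C(Ω, ℝ) →ₗ[ℝ] C(Z, ℝ)), hint, hpos⟩

end Pool.Agent.PVH
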