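import Pool.Agent.helper72.PV.SpecH

/-!
# Project pv (MP_376aaf_an), block H, row INV
-/

set_option autoImplicit false

open Finset

namespace Pool.Agent.PVH

open Pool.Agent.PV Pool.Agent.CZ

theorem INV_pow {X : Type} [TopologicalSpace X] (s : X ≃ₜ X) (f : C(X, ℤ))
    (hf : ∀ x, f (s x) = f x) (m : ℕ) (x : X) : f ((s ^ m) x) = f x := by
  induction m generalizing x with
  | zero => rfl
  | succ m ih =>
    rw [pow_succ]
    change f ((s ^ m) (s x)) = f x
    rw [ih, hf]

theorem INV_zpow {X : Type} [TopologicalSpace X] (s : X ≃ₜ X) (f : C(X, ℤ))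
    (hf : ∀ x, f (s x) = f x) (m : ℤ) (x : X) : f ((s ^ m) x) = f x := by
  obtain ⟨r, rfl | rfl⟩ := m.eq_nat_or_neg
  · rw [zpow_natCast]
    exact INV_pow s f hf r x
  · rw [zpow_neg, zpow_natCast]
    have h1 := INV_pow s f hf r ((s ^ r)⁻¹ x)
    have h2 : (s ^ r) ((s ^ r)⁻¹ x) = x := by
      change ((s ^ r) * (s ^ r)⁻¹) x = x
      rw [mul_inv_cancel]
      rfl
    rw [h2] at h1
    exact h1.symm

theorem INV : INV_stmt := by
  intro X _ s hmin f hf
  rcases isEmpty_or_nonempty X with hE | ⟨⟨x0⟩⟩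
  · exact ⟨0, fun x => (hE.false x).elim⟩
  · refine ⟨f x0, fun y => ?_⟩
    have hc : IsClosed {y | f y = f x0} := isClosed_eq f.continuous continuous_const
    have hsub : Set.range (fun m : ℤ => (s ^ m) x0) ⊆ {y | f y = f x0} := by
      rintro _ ⟨m, rfl⟩
      exact INV_zpow s f hf m x0
    exact hc.closure_subset_iff.mpr hsub (hmin x0 y)

end Pool.Agent.PVH
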