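import Pool.Agent.helper72.PV.SpecH

/-!
# Project pv (MP_376aaf_an), block H, row OCC: every symbol occurs
-/

set_option autoImplicit false

open Finset

namespace Pool.Agent.PVH

open Pool.Agent.PV Pool.Agent.CZ

/-- the image in level `j` of a symbol of level `j + i` -/
def OCC_dn (pr : ℕ → ℕ × ℕ → ℕ × ℕ) : ℕ → ℕ → ℕ × ℕ → ℕ × ℕ
  | 0, _, q => q
  | i + 1, j, q => pr j (OCC_dn pr i (j + 1) q)

theorem OCC_dn_succ (pr : ℕ → ℕ × ℕ → ℕ × ℕ) (i j : ℕ) (q : ℕ × ℕ) :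
    OCC_dn pr (i + 1) j q = OCC_dn pr i j (pr (j + i) q) := by
  induction i generalizing j with
  | zero => rfl
  | succ i ih =>
    have h1 : OCC_dn pr (i + 1 + 1) j q = pr j (OCC_dn pr (i + 1) (j + 1) q) := rfl
    rw [h1, ih (j + 1), show j + 1 + i = j + (i + 1) by omega]
    rfl

theorem OCC_sym {n : ℕ → ℕ} {h : ℕ → ℕ → ℕ} {M : ℕ → ℕ → ℕ → ℕ} {pr : ℕ → ℕ × ℕ → ℕ × ℕ}
    (hT : TSys n h M pr) (i j : ℕ) (q : ℕ × ℕ) (hq : Sym n h (j + i) q) :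
    Sym n h j (OCC_dn pr i j q) := by
  induction i generalizing j with
  | zero => exact hq
  | succ i ih =>
    refine hT.mem j _ (ih (j + 1) ?_)
    rw [show j + 1 + i = j + (i + 1) by omega]
    exact hq

theorem OCC_lift {n : ℕ → ℕ} {h : ℕ → ℕ → ℕ} {M : ℕ → ℕ → ℕ → ℕ} {pr : ℕ → ℕ × ℕ → ℕ × ℕ}
    (hT : TSys n h M pr) (k : ℕ) (p : ℕ × ℕ) (hp : Sym n h k p) :
    ∃ q, Sym n h (k + 1) q ∧ pr k q = p := by
  have h1 := hT.cnt k 0 p.1 p.2 (hT.npos _) hp.1 hp.2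
  have h2 := hT.three k 0 p.1 (hT.npos _) hp.1
  have h3 : ((range (h (k + 1) 0)).filter (fun j => pr k (0, j) = (p.1, p.2))).Nonempty := by
    rw [← Finset.card_pos]
    omega
  obtain ⟨j, hj⟩ := h3
  rw [Finset.mem_filter, Finset.mem_range] at hj
  exact ⟨(0, j), ⟨hT.npos _, hj.1⟩, hj.2⟩

theorem OCC : OCC_stmt := by
  intro n h M pr hT k p hp
  let Y : (i : ℕ) → {q // Sym n h (k + i) q} := fun i =>
    Nat.rec (motive := fun i => {q // Sym n h (k + i) q}) ⟨p, hp⟩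
      (fun i y => ⟨(OCC_lift hT (k + i) y.1 y.2).choose,
        (OCC_lift hT (k + i) y.1 y.2).choose_spec.1⟩) i
  have hY0 : (Y 0).1 = p := rfl
  have hY : ∀ i, pr (k + i) (Y (i + 1)).1 = (Y i).1 := fun i =>
    (OCC_lift hT (k + i) (Y i).1 (Y i).2).choose_spec.2
  have hS : ∀ j, Sym n h j (OCC_dn pr k j (Y j).1) := by
    intro j
    refine OCC_sym hT k j _ ?_
    rw [Nat.add_comm]
    exact (Y j).2
  have hC : ∀ j, OCC_dn pr k j (Y j).1 = pr j (OCC_dn pr k (j + 1) (Y (j + 1)).1) := by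
    intro j
    have h1 : pr j (OCC_dn pr k (j + 1) (Y (j + 1)).1) = OCC_dn pr (k + 1) j (Y (j + 1)).1 := rfl
    rw [h1, OCC_dn_succ, Nat.add_comm j k, hY]
  have hE : ∀ i, OCC_dn pr i k (Y i).1 = p := by
    intro i
    induction i with
    | zero => exact hY0
    | succ i ih => rw [OCC_dn_succ, hY, ih]
  exact ⟨⟨fun j => OCC_dn pr k j (Y j).1, fun j => ⟨hS j, hC j⟩⟩, hE k⟩

end Pool.Agent.PVH
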