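import Pool.Agent.helper72.PV.SpecH

/-!
# Project pv (MP_376aaf_an), block H, row OIN
-/

set_option autoImplicit false

open Finset

namespace Pool.Agent.PVH

open Pool.Agent.PV Pool.Agent.CZ

theorem OIN_height {n : ℕ → ℕ} {h : ℕ → ℕ → ℕ} {M : ℕ → ℕ → ℕ → ℕ} {pr : ℕ → ℕ × ℕ → ℕ × ℕ}
    (hT : TSys n h M pr) (k v : ℕ) (hv : v < n k) : 3 ^ k ≤ h k v := by
  induction k generalizing v with
  | zero => exact hT.hpos 0 v hv
  | succ k ih =>
    have h1 : M k v 0 * h k 0 ≤ h (k + 1) v := by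
      rw [hT.ht k v hv]
      exact Finset.single_le_sum (f := fun u => M k v u * h k u)
        (fun _ _ => Nat.zero_le _) (Finset.mem_range.mpr (hT.npos k))
    have h2 := hT.three k v 0 hv (hT.npos k)
    have h3 := ih 0 (hT.npos k)
    calc 3 ^ (k + 1) = 3 * 3 ^ k := by ring
      _ ≤ M k v 0 * h k 0 := Nat.mul_le_mul h2 h3
      _ ≤ h (k + 1) v := h1

theorem OIN (hOCC : OCC_stmt) : OIN_stmt := by
  intro n h M pr hT
  by_contra hfin
  rw [not_infinite_iff_finite] at hfin
  have h1 : ∀ k, 3 ^ k ≤ Nat.card ↥(Om n h pr) := by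
    intro k
    have h2 : ∀ i : Fin (h k 0), ∃ x : ↥(Om n h pr), x.1 k = (0, i.1) := fun i =>
      hOCC n h M pr hT k (0, i.1) ⟨hT.npos k, i.2⟩
    choose X hX using h2
    have h3 : Function.Injective X := by
      intro i j hij
      have h4 := hX i
      rw [hij, hX j] at h4
      exact Fin.ext (congrArg Prod.snd h4).symm
    have h5 := Nat.card_le_card_of_injective X h3
    rw [Nat.card_eq_fintype_card, Fintype.card_fin] at h5
    exact (OIN_height hT k 0 (hT.npos k)).trans h5
  exact absurd (h1 (Nat.card ↥(Om n h pr))) (not_le.mpr (Nat.lt_pow_self (by norm_num)))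

end Pool.Agent.PVH
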