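import Pool.Agent.helper72.PV.SpecH

/-!
# Project pv (MP_376aaf_an), block H, row OMN
-/

set_option autoImplicit false

open Finset

namespace Pool.Agent.PVH

open Pool.Agent.PV Pool.Agent.CZ

theorem OMN (hCYL : CYL_stmt) (hOST : OST_stmt) : OMN_stmt := by
  intro n h M pr hT s hs x
  rw [dense_iff_inter_open]
  intro U hU hne
  obtain ⟨y, hy⟩ := hne
  obtain ⟨k, hk⟩ := hCYL n h pr U hU y hy
  have hy1 := (y.2 k).1
  have hx1 := (x.2 (k + 1)).1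
  have h1 := hT.cnt k (x.1 (k + 1)).1 (y.1 k).1 (y.1 k).2 hx1.1 hy1.1 hy1.2
  have h2 := hT.three k (x.1 (k + 1)).1 (y.1 k).1 hx1.1 hy1.1
  have h3 : ((range (h (k + 1) (x.1 (k + 1)).1)).filter
      (fun j => pr k ((x.1 (k + 1)).1, j) = ((y.1 k).1, (y.1 k).2))).Nonempty := by
    rw [← Finset.card_pos]
    omega
  obtain ⟨j, hj⟩ := h3
  rw [Finset.mem_filter, Finset.mem_range] at hj
  obtain ⟨m, hm⟩ := (hOST n h M pr hT s hs).2.2 x (k + 1) j hj.1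
  refine ⟨(s ^ m) x, hk _ ?_, ⟨m, rfl⟩⟩
  rw [(((s ^ m) x).2 k).2, hm, hj.2]

end Pool.Agent.PVH
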