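import Pool.Agent.helper72.PV.SpecH

/-!
# Project pv (MP_376aaf_an), block H, row QLV
-/

set_option autoImplicit false

open Finset

namespace Pool.Agent.PVH

open Pool.Agent.PV Pool.Agent.CZ

theorem QLV (hTSM : TSM_stmt) : QLV_stmt := by
  intro H _ P g n h M pr th hT hH k F
  unfold Qv
  have h1 : ∀ v' ∈ range (n (k + 1)), (∑ i ∈ range (h (k + 1) v'), F (pr k (v', i))) • th (k + 1) v' =
      ∑ v ∈ range (n k), ((M k v' v : ℤ) * ∑ i ∈ range (h k v), F (v, i)) • th (k + 1) v' := by
    intro v' hv'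
    rw [hTSM n h M pr hT k v' F (Finset.mem_range.mp hv'), Finset.sum_smul]
  rw [Finset.sum_congr rfl h1, Finset.sum_comm]
  refine Finset.sum_congr rfl fun v hv => ?_
  rw [hH.th_eq k v (Finset.mem_range.mp hv), Finset.smul_sum]
  refine Finset.sum_congr rfl fun v' _ => ?_
  rw [mul_comm, mul_smul, natCast_zsmul]

end Pool.Agent.PVH
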