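import Pool.Agent.helper72.PV.SpecH

/-!
# Project pv (MP_376aaf_an), block H, row SEQ: the sequence of the stages
-/

set_option autoImplicit false

open Finset

namespace Pool.Agent.PVH

open Pool.Agent.PV Pool.Agent.CZ

/-- the heights of the towers -/
def SEQ_h (n : ℕ → ℕ) (M : ℕ → ℕ → ℕ → ℕ) : ℕ → ℕ → ℕ
  | 0, _ => 1
  | k + 1, v' => ∑ v ∈ range (n k), M k v' v * SEQ_h n M k v

theorem SEQ (hSTN : STN_stmt) : SEQ_stmt := by
  intro H _ _ P g hS
  have hne : Nonempty {x // P x} := ⟨⟨g, hS.unit⟩⟩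
  obtain ⟨e, he⟩ := exists_surjective_nat {x // P x}
  let St := {S : ℕ × (ℕ → H) // 0 < S.1 ∧ ∀ j, j < S.1 → P (S.2 j)}
  have hstep : ∀ (S : St) (x : {x // P x}), ∃ (S' : St) (M : ℕ → ℕ → ℕ),
      (∀ j, j < S.1.1 → S.1.2 j = ∑ j' ∈ range S'.1.1, M j' j • S'.1.2 j') ∧
      (∀ j' j, j' < S'.1.1 → j < S.1.1 → 3 ≤ M j' j) ∧
      (∀ z : ℕ → ℤ, ∑ j ∈ range S.1.1, z j • S.1.2 j = 0 → ∀ j', j' < S'.1.1 →
        ∑ j ∈ range S.1.1, (M j' j : ℤ) * z j = 0) ∧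
      ∃ c : ℕ → ℕ, x.1 = ∑ j' ∈ range S'.1.1, c j' • S'.1.2 j' := by
    intro S x
    obtain ⟨n', w, M, h1, h2, h3, h4, h5, h6⟩ := hSTN H P g hS S.1.1 S.1.2 S.2.1 S.2.2 x.1 x.2
    exact ⟨⟨(n', w), h1, h2⟩, M, h3, h4, h5, h6⟩
  choose nx Mx hx1 hx2 hx3 hx4 using hstep
  let S : ℕ → St := fun k => Nat.rec ⟨(1, fun _ => g), by simp, fun _ _ => hS.unit⟩
    (fun k s => nx s (e k)) k
  have hS0 : S 0 = ⟨(1, fun _ => g), by simp, fun _ _ => hS.unit⟩ := rfl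
  have hSk : ∀ k, S (k + 1) = nx (S k) (e k) := fun k => rfl
  let n : ℕ → ℕ := fun k => (S k).1.1
  let th : ℕ → ℕ → H := fun k => (S k).1.2
  let M : ℕ → ℕ → ℕ → ℕ := fun k => Mx (S k) (e k)
  have hn : ∀ k, 0 < n k := fun k => (S k).2.1
  have h3 : ∀ k v' v, v' < n (k + 1) → v < n k → 3 ≤ M k v' v := fun k v' v hv' hv =>
    hx2 (S k) (e k) v' v hv' hv
  have hth : ∀ k v, v < n k → th k v = ∑ v' ∈ range (n (k + 1)), M k v' v • th (k + 1) v' :=
    fun k v hv => hx1 (S k) (e k) v hv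
  refine ⟨n, SEQ_h n M, M, th, ⟨hn, ?_, h3, fun k v' _ => rfl⟩, ⟨fun k v hv => (S k).2.2 v hv, ?_,
    hth, fun k z hz v' hv' => hx3 (S k) (e k) z hz v' hv', ?_⟩⟩
  · intro k
    induction k with
    | zero => intro v _; exact Nat.one_pos
    | succ k ih =>
      intro v' hv'
      have h1 : M k v' 0 * SEQ_h n M k 0 ≤ SEQ_h n M (k + 1) v' :=
        Finset.single_le_sum (f := fun v => M k v' v * SEQ_h n M k v)
          (fun _ _ => Nat.zero_le _) (Finset.mem_range.mpr (hn k))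
      have h2 := h3 k v' 0 hv' (hn k)
      have h4 := ih 0 (hn k)
      have h5 : 0 < M k v' 0 * SEQ_h n M k 0 := Nat.mul_pos (by omega) h4
      omega
  · intro k
    induction k with
    | zero =>
      change ∑ v ∈ range 1, (1 : ℕ) • g = g
      simp
    | succ k ih =>
      have h1 : ∀ v' ∈ range (n (k + 1)), SEQ_h n M (k + 1) v' • th (k + 1) v' =
          ∑ v ∈ range (n k), (M k v' v * SEQ_h n M k v) • th (k + 1) v' := by
        intro v' _
        change (∑ v ∈ range (n k), M k v' v * SEQ_h n M k v) • th (k + 1) v' = _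
        rw [Finset.sum_smul]
      rw [Finset.sum_congr rfl h1, Finset.sum_comm, ← ih]
      refine Finset.sum_congr rfl fun v hv => ?_
      rw [hth k v (Finset.mem_range.mp hv), Finset.smul_sum]
      refine Finset.sum_congr rfl fun v' _ => ?_
      rw [mul_comm, mul_smul]
  · intro x hx
    obtain ⟨i, hi⟩ := he ⟨x, hx⟩
    obtain ⟨c, hc⟩ := hx4 (S i) (e i)
    have h1 : (e i).1 = x := by rw [hi]
    exact ⟨i + 1, c, h1.symm.trans hc⟩

end Pool.Agent.PVH
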