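import Pool.Agent.helper72.PV.SpecH

/-!
# Project pv (MP_376aaf_an), block H, row SHF: the tower map is a homeomorphism
-/

set_option autoImplicit false

open Finset

namespace Pool.Agent.PVH

open Pool.Agent.PV Pool.Agent.CZ

variable {n : ℕ → ℕ} {h : ℕ → ℕ → ℕ} {M : ℕ → ℕ → ℕ → ℕ} {pr : ℕ → ℕ × ℕ → ℕ × ℕ}

theorem SHF_zero (hT : TSys n h M pr) (k : ℕ) : Sym n h k (0, 0) :=
  ⟨hT.npos k, hT.hpos k 0 (hT.npos k)⟩

theorem SHF_top (hT : TSys n h M pr) (k v i : ℕ) (hv : v < n (k + 1)) (hi : i + 1 = h (k + 1) v) :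
    pr k (v, i) = (0, h k 0 - 1) := by
  have := hT.top k v hv
  rw [← hi, Nat.add_sub_cancel] at this
  exact this

/-- the rule for the successor, in one statement -/
theorem SHF_cases (hT : TSys n h M pr) (k v i : ℕ) (hv : v < n (k + 1))
    (hi : i + 1 < h (k + 1) v) :
    ∃ w l, pr k (v, i) = (w, l) ∧ w < n k ∧ ((l + 1 < h k w ∧ pr k (v, i + 1) = (w, l + 1)) ∨
      (l + 1 = h k w ∧ ∃ w', pr k (v, i + 1) = (w', 0) ∧ w' < n k)) := by
  have hm := hT.mem k (v, i) ⟨hv, by simp only; omega⟩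
  have hm' := hT.mem k (v, i + 1) ⟨hv, by simp only; omega⟩
  refine ⟨(pr k (v, i)).1, (pr k (v, i)).2, rfl, hm.1, ?_⟩
  rcases Nat.lt_or_ge ((pr k (v, i)).2 + 1) (h k (pr k (v, i)).1) with hlt | hge
  · exact Or.inl ⟨hlt, hT.suc k v i hv hi hlt⟩
  · right
    have h1 : (pr k (v, i)).2 + 1 = h k (pr k (v, i)).1 := by
      have := hm.2
      omega
    refine ⟨h1, (pr k (v, i + 1)).1, ?_, hm'.1⟩
    have := hT.brk k v i hv hi h1
    exact Prod.ext rfl this

theorem SHF_symn (hT : TSys n h M pr) (k : ℕ) (p : ℕ × ℕ) (hp : Sym n h (k + 1) p) :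
    Sym n h k (nxt h pr k p) := by
  unfold nxt
  split_ifs with h1
  · exact hT.mem k _ ⟨hp.1, h1⟩
  · exact SHF_zero hT k

theorem SHF_symp (hT : TSys n h M pr) (k : ℕ) (p : ℕ × ℕ) (hp : Sym n h (k + 1) p) :
    Sym n h k (prv h pr k p) := by
  unfold prv
  split_ifs with h1
  · refine ⟨hT.npos k, ?_⟩
    have := hT.hpos k 0 (hT.npos k)
    simp only
    omega
  · refine hT.mem k _ ⟨hp.1, ?_⟩
    have := hp.2
    simp only
    omega

theorem SHF_nn (hT : TSys n h M pr) (k : ℕ) (p : ℕ × ℕ) (hp : Sym n h (k + 2) p) :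
    nxt h pr k (pr (k + 1) p) = pr k (nxt h pr (k + 1) p) := by
  obtain ⟨v, i⟩ := p
  have hv : v < n (k + 1 + 1) := hp.1
  have hi : i < h (k + 1 + 1) v := hp.2
  rcases Nat.lt_or_ge (i + 1) (h (k + 1 + 1) v) with h1 | h1
  · have e1 : nxt h pr (k + 1) (v, i) = pr (k + 1) (v, i + 1) := by
      unfold nxt; rw [if_pos h1]
    rw [e1]
    obtain ⟨w, l, e2, hw, h2 | h2⟩ := SHF_cases hT (k + 1) v i hv h1
    · rw [e2, h2.2]
      unfold nxt
      rw [if_pos h2.1]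
    · obtain ⟨h3, w', e3, hw'⟩ := h2
      rw [e2, e3, hT.bot k w' hw']
      unfold nxt
      rw [if_neg (by simp only; omega)]
  · have e1 : nxt h pr (k + 1) (v, i) = (0, 0) := by
      unfold nxt; rw [if_neg (by simp only; omega)]
    rw [e1, hT.bot k 0 (hT.npos _), SHF_top hT (k + 1) v i hv (by omega)]
    unfold nxt
    have := hT.hpos (k + 1) 0 (hT.npos _)
    rw [if_neg (by simp only; omega)]

theorem SHF_pp (hT : TSys n h M pr) (k : ℕ) (p : ℕ × ℕ) (hp : Sym n h (k + 2) p) :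
    prv h pr k (pr (k + 1) p) = pr k (prv h pr (k + 1) p) := by
  obtain ⟨v, i⟩ := p
  have hv : v < n (k + 1 + 1) := hp.1
  have hi : i < h (k + 1 + 1) v := hp.2
  have hh := hT.hpos (k + 1) 0 (hT.npos _)
  rcases Nat.eq_zero_or_pos i with h1 | h1
  · subst h1
    have e1 : prv h pr (k + 1) (v, 0) = (0, h (k + 1) 0 - 1) := by
      unfold prv; rw [if_pos rfl]
    rw [e1, hT.bot (k + 1) v hv, SHF_top hT k 0 (h (k + 1) 0 - 1) (hT.npos _) (by omega)]
    unfold prv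
    rw [if_pos rfl]
  · obtain ⟨j, rfl⟩ : ∃ j, i = j + 1 := ⟨i - 1, by omega⟩
    have e1 : prv h pr (k + 1) (v, j + 1) = pr (k + 1) (v, j) := by
      unfold prv; rw [if_neg (by simp)]; simp
    rw [e1]
    obtain ⟨w, l, e2, hw, h2 | h2⟩ := SHF_cases hT (k + 1) v j hv hi
    · rw [e2, h2.2]
      unfold prv
      rw [if_neg (by simp)]
      simp
    · obtain ⟨h3, w', e3, hw'⟩ := h2
      rw [e2, e3, SHF_top hT k w l hw h3]
      unfold prv
      rw [if_pos rfl]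

theorem SHF_np (hT : TSys n h M pr) (k : ℕ) (p : ℕ × ℕ) (hp : Sym n h (k + 2) p) :
    nxt h pr k (prv h pr (k + 1) p) = pr k (pr (k + 1) p) := by
  obtain ⟨v, i⟩ := p
  have hv : v < n (k + 1 + 1) := hp.1
  have hi : i < h (k + 1 + 1) v := hp.2
  have hh := hT.hpos (k + 1) 0 (hT.npos _)
  rcases Nat.eq_zero_or_pos i with h1 | h1
  · subst h1
    have e1 : prv h pr (k + 1) (v, 0) = (0, h (k + 1) 0 - 1) := by
      unfold prv; rw [if_pos rfl]
    rw [e1, hT.bot (k + 1) v hv, hT.bot k 0 (hT.npos _)]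
    unfold nxt
    rw [if_neg (by simp only; omega)]
  · obtain ⟨j, rfl⟩ : ∃ j, i = j + 1 := ⟨i - 1, by omega⟩
    have e1 : prv h pr (k + 1) (v, j + 1) = pr (k + 1) (v, j) := by
      unfold prv; rw [if_neg (by simp)]; simp
    rw [e1]
    obtain ⟨w, l, e2, hw, h2 | h2⟩ := SHF_cases hT (k + 1) v j hv hi
    · rw [e2, h2.2]
      unfold nxt
      rw [if_pos h2.1]
    · obtain ⟨h3, w', e3, hw'⟩ := h2
      rw [e2, e3, hT.bot k w' hw']
      unfold nxt
      rw [if_neg (by simp only; omega)]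

theorem SHF_pn (hT : TSys n h M pr) (k : ℕ) (p : ℕ × ℕ) (hp : Sym n h (k + 2) p) :
    prv h pr k (nxt h pr (k + 1) p) = pr k (pr (k + 1) p) := by
  obtain ⟨v, i⟩ := p
  have hv : v < n (k + 1 + 1) := hp.1
  have hi : i < h (k + 1 + 1) v := hp.2
  have hh := hT.hpos (k + 1) 0 (hT.npos _)
  rcases Nat.lt_or_ge (i + 1) (h (k + 1 + 1) v) with h1 | h1
  · have e1 : nxt h pr (k + 1) (v, i) = pr (k + 1) (v, i + 1) := by
      unfold nxt; rw [if_pos h1]
    rw [e1]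
    obtain ⟨w, l, e2, hw, h2 | h2⟩ := SHF_cases hT (k + 1) v i hv h1
    · rw [e2, h2.2]
      unfold prv
      rw [if_neg (by simp)]
      simp
    · obtain ⟨h3, w', e3, hw'⟩ := h2
      rw [e2, e3, SHF_top hT k w l hw h3]
      unfold prv
      rw [if_pos rfl]
  · have e1 : nxt h pr (k + 1) (v, i) = (0, 0) := by
      unfold nxt; rw [if_neg (by simp only; omega)]
    rw [e1, SHF_top hT (k + 1) v i hv (by omega), SHF_top hT k 0 (h (k + 1) 0 - 1) (hT.npos _)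
      (by omega)]
    unfold prv
    rw [if_pos rfl]

theorem SHF_cont (F : ℕ → ℕ × ℕ → ℕ × ℕ)
    (hF : ∀ x : ↥(Om n h pr), (fun k => F k (x.1 (k + 1))) ∈ Om n h pr) :
    Continuous (fun x : ↥(Om n h pr) => (⟨fun k => F k (x.1 (k + 1)), hF x⟩ : ↥(Om n h pr))) := by
  refine Continuous.subtype_mk (continuous_pi fun k => ?_) _
  exact (continuous_of_discreteTopology (f := F k)).comp
    ((continuous_apply (k + 1)).comp continuous_subtype_val)

theorem SHF : SHF_stmt := by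
  intro n h M pr hT
  have hn : ∀ x : ↥(Om n h pr), (fun k => nxt h pr k (x.1 (k + 1))) ∈ Om n h pr := by
    intro x k
    refine ⟨SHF_symn hT k _ (x.2 (k + 1)).1, ?_⟩
    have h1 := (x.2 (k + 1)).2
    simp only
    rw [h1]
    exact SHF_nn hT k _ (x.2 (k + 2)).1
  have hp : ∀ x : ↥(Om n h pr), (fun k => prv h pr k (x.1 (k + 1))) ∈ Om n h pr := by
    intro x k
    refine ⟨SHF_symp hT k _ (x.2 (k + 1)).1, ?_⟩
    have h1 := (x.2 (k + 1)).2
    simp only
    rw [h1]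
    exact SHF_pp hT k _ (x.2 (k + 2)).1
  refine ⟨⟨⟨fun x => ⟨_, hn x⟩, fun x => ⟨_, hp x⟩, ?_, ?_⟩, SHF_cont _ hn, SHF_cont _ hp⟩,
    fun x k => rfl⟩
  · intro x
    refine Subtype.ext (funext fun k => ?_)
    change prv h pr k (nxt h pr (k + 1) (x.1 (k + 1 + 1))) = x.1 k
    rw [SHF_pn hT k _ (x.2 (k + 2)).1, ← (x.2 (k + 1)).2, ← (x.2 k).2]
  · intro x
    refine Subtype.ext (funext fun k => ?_)
    change nxt h pr k (prv h pr (k + 1) (x.1 (k + 1 + 1))) = x.1 k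
    rw [SHF_np hT k _ (x.2 (k + 2)).1, ← (x.2 (k + 1)).2, ← (x.2 k).2]

end Pool.Agent.PVH
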