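import Pool.Agent.helper72.PV.SpecH

/-!
# Project pv (MP_376aaf_an), block H, row TSM
-/

set_option autoImplicit false

open Finset

namespace Pool.Agent.PVH

open Pool.Agent.PV Pool.Agent.CZ

theorem TSM : TSM_stmt := by
  intro n h M pr hT k v' F hv'
  have h1 := Finset.sum_fiberwise_of_maps_to (s := range (h (k + 1) v'))
    (t := (range (n k)).sigma (fun v => range (h k v)))
    (g := fun j => (⟨(pr k (v', j)).1, (pr k (v', j)).2⟩ : Σ _ : ℕ, ℕ)) (by
      intro j hj
      have h2 := hT.mem k (v', j) ⟨hv', Finset.mem_range.mp hj⟩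
      rw [Finset.mem_sigma, Finset.mem_range, Finset.mem_range]
      exact h2) (fun j => F (pr k (v', j)))
  rw [← h1, Finset.sum_sigma]
  refine Finset.sum_congr rfl fun v hv => ?_
  rw [Finset.mul_sum]
  refine Finset.sum_congr rfl fun i hi => ?_
  rw [Finset.mem_range] at hv hi
  rw [← hT.cnt k v' v i hv' hv hi]
  have h3 : (range (h (k + 1) v')).filter
      (fun j => (⟨(pr k (v', j)).1, (pr k (v', j)).2⟩ : Σ _ : ℕ, ℕ) = ⟨v, i⟩) =
      (range (h (k + 1) v')).filter (fun j => pr k (v', j) = (v, i)) := by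
    refine Finset.filter_congr fun j _ => ?_
    rw [Prod.ext_iff, Sigma.ext_iff]
    simp
  rw [h3, Finset.sum_congr rfl (g := fun _ => F (v, i))]
  · rw [Finset.sum_const, nsmul_eq_mul]
  · intro j hj
    rw [(Finset.mem_filter.mp hj).2]

end Pool.Agent.PVH
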