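import Pool.Agent.helper72.PV.Asm
import Pool.Agent.helper72.PV.AFL
import Pool.Agent.helper3.PV.CYL
import Pool.Agent.helper41.PV.DEN
import Pool.Agent.helper72.PV.EXR
import Pool.Agent.helper68.PV.FAC
import Pool.Agent.helper72.PV.INV
import Pool.Agent.helper62.PV.LOW
import Pool.Agent.helper62.PV.MIX
import Pool.Agent.helper72.PV.OCC
import Pool.Agent.helper72.PV.OIN
import Pool.Agent.helper72.PV.OMN
import Pool.Agent.helper19.PV.OST
import Pool.Agent.helper13.PV.OTP
import Pool.Agent.helper91.PV.PTE
import Pool.Agent.helper80.PV.QHM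
import Pool.Agent.helper80.PV.QKR
import Pool.Agent.helper72.PV.QLV
import Pool.Agent.helper80.PV.QPS
import Pool.Agent.helper49.PV.QSF
import Pool.Agent.helper43.PV.RDC
import Pool.Agent.helper72.PV.SEQ
import Pool.Agent.helper98.PV.SGK
import Pool.Agent.helper83.PV.SHC
import Pool.Agent.helper43.PV.SHD
import Pool.Agent.helper72.PV.SHF
import Pool.Agent.helper43.PV.SHG
import Pool.Agent.helper43.PV.SHS
import Pool.Agent.helper43.PV.SHX
import Pool.Agent.helper91.PV.SPK
import Pool.Agent.helper98.PV.STA
import Pool.Agent.helper62.PV.STN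
import Pool.Agent.helper62.PV.STP
import Pool.Agent.helper72.PV.TSM
import Pool.Agent.helper19.PV.TSY
import Pool.Agent.helper52.PV.UNQ
import Pool.Agent.helper19.PV.WRD

/-!
# Project pv (MP_376aaf_an), block H: the result

Every dense torsion free `H → Aff(K)`, `K` a metrizable Choquet simplex, comes from a Cantor minimal
system. No hypotheses.
-/

set_option autoImplicit false

namespace Pool.Agent.PVH

theorem allSHD : SHD_stmt := SHD (SHC (SHS RDC SHX SHG))

theorem allSEQ : SEQ_stmt := SEQ (STN (STP allSHD (MIX LOW)))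

theorem allTSY : TSY_stmt := TSY WRD

theorem allFAC : FAC_stmt := FAC OTP CYL

theorem allQLV : QLV_stmt := QLV TSM

/-- the Cantor minimal system of a countable simple ordered group with interpolation -/
theorem cantorSystem : SYS_stmt :=
  SYS allSEQ allTSY SHF OTP (OIN OCC) (OMN CYL OST) (QHM allFAC OCC allQLV) (QSF allFAC allQLV)
    (QKR allFAC TSM OST) (QPS allFAC OCC)

theorem allSTA : STA_stmt := STA (EXR DEN) (AFL DEN) (UNQ DEN) SPK PTE

/-- the result of block H -/
theorem cantorRealization : CNT_stmt := CNT SGK cantorSystem allSTA INV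

end Pool.Agent.PVH
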