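import Pool.Agent.helper72.PV.SpecH

/-!
# Project pv (MP_376aaf_an), block H: assembly of the rows
-/

set_option autoImplicit false

open Finset

namespace Pool.Agent.PVH

open Pool.Agent.PV Pool.Agent.CZ

theorem SYS (hSEQ : SEQ_stmt) (hTSY : TSY_stmt) (hSHF : SHF_stmt) (hOTP : OTP_stmt)
    (hOIN : OIN_stmt) (hOMN : OMN_stmt) (hQHM : QHM_stmt) (hQSF : QSF_stmt) (hQKR : QKR_stmt)
    (hQPS : QPS_stmt) : SYS_stmt := by
  intro H _ _ P g hS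
  obtain ⟨n, h, M, th, hB, hT⟩ := hSEQ H P g hS
  obtain ⟨pr, hpr⟩ := hTSY n h M hB
  obtain ⟨s, hs⟩ := hSHF n h M pr hpr
  obtain ⟨h1, h2, h3⟩ := hOTP n h pr
  obtain ⟨Q, hQ⟩ := hQHM H P g n h M pr th hpr hT
  obtain ⟨q1, q2, q3, q4⟩ := hQPS H P g hS n h M pr th hpr hT Q hQ
  refine ⟨↥(Om n h pr), inferInstance, h1, h2, h3, hOIN n h M pr hpr, s, Q, hOMN n h M pr hpr s hs,
    ?_⟩
  refine ⟨q1, fun f => ⟨fun hf => hQKR H P g n h M pr th hpr hT Q hQ s hs f hf, ?_⟩, q4, q2, q3⟩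
  rintro ⟨e, he⟩
  have h4 : f = e.comp (s : C(↥(Om n h pr), ↥(Om n h pr))) - e := by
    ext x
    simpa using he x
  rw [h4, map_sub, hQSF H P g n h M pr th hpr hT Q hQ s hs e, sub_self]

theorem CNT (hSGK : SGK_stmt) (hSYS : SYS_stmt) (hSTA : STA_stmt) (hINV : INV_stmt) :
    CNT_stmt := by
  intro E _ _ _ _ _ _ _ K hK H _ _ ρ g hD htf
  obtain ⟨Ω, i1, i2, i3, i4, i5, s, Q, hmin, hQ⟩ := hSYS H (KP K ρ) g (hSGK E K hK H ρ g hD htf)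
  obtain ⟨T, t1, t2, t3, t4, t5⟩ := hSTA E K H ρ g hD Ω s Q hQ
  exact ⟨Ω, i1, i2, i3, i4, i5, s, Q, T, hmin, hQ, hINV Ω s hmin, t1, t2, t3, t4, t5⟩

end Pool.Agent.PVH
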