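import Pool.Agent.helper72.PV.Cantor
import Pool.Agent.helper53.PV.DefsF

/-!
# Project pv (MP_376aaf_an), block H: the result in terms of `InvSt`
-/

set_option autoImplicit false

namespace Pool.Agent.PVH

open Pool.Agent.PV Pool.Agent.CZ

/-- every dense homomorphism `ρ : H → Aff(K)` with `ρ g = 1`, `H` countable torsion free, `K` a
compact simplex, comes from a Cantor minimal system: `Q : C(Ω, ℤ) → H` is the quotient by the
coboundaries, the points of `K` are the invariant states, `T t (f) = ρ (Q f) t` -/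
theorem cantorSt (E : Type) [AddCommGroup E] [Module ℝ E] [TopologicalSpace E]
    [IsTopologicalAddGroup E] [ContinuousSMul ℝ E] [LocallyConvexSpace ℝ E] [T2Space E] (K : Set E)
    (hK : IsSimplex K) (H : Type) [AddCommGroup H] [Countable H] (ρ : H →+ C(K, ℝ)) (g : H)
    (hD : KD K ρ g) (htf : ∀ (n : ℕ) (x : H), 1 ≤ n → n • x = 0 → x = 0) :
    ∃ (Ω : Type) (_ : TopologicalSpace Ω) (_ : CompactSpace Ω)
      (_ : TopologicalSpace.MetrizableSpace Ω) (_ : TotallyDisconnectedSpace Ω) (_ : Infinite Ω)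
      (s : Ω ≃ₜ Ω) (Q : C(Ω, ℤ) →+ H) (T : K → InvSt s), IsMinimal s ∧
      IsDim (KP K ρ) g s Q ∧
      (∀ f : C(Ω, ℤ), (∀ x, f (s x) = f x) → ∃ c : ℤ, ∀ x, f x = c) ∧
      Function.Bijective T ∧
      (∀ (f : C(Ω, ℤ)) (t : K), (T t).φ (intR f) = ρ (Q f) t) ∧
      ∀ f : C(Ω, ℝ), ∃ a : C(K, ℝ), IsAff a ∧ ∀ t, a t = (T t).φ f := by
  obtain ⟨Ω, i1, i2, i3, i4, i5, s, Q, T, h1, h2, h3, h4, h5, h6, h7, h8⟩ :=
    cantorRealization E K hK H ρ g hD htf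
  refine ⟨Ω, i1, i2, i3, i4, i5, s, Q, fun t => ⟨T t, (h4 t).nonneg, (h4 t).one, (h4 t).inv⟩, h1, h2,
    h3, ⟨fun t t' htt => h7 (congrArg InvSt.φ htt), fun φ => ?_⟩, h5, h6⟩
  obtain ⟨t, ht⟩ := h8 φ.φ ⟨φ.nonneg, φ.one, φ.inv⟩
  refine ⟨t, ?_⟩
  cases φ
  simp only [InvSt.mk.injEq]
  exact ht

end Pool.Agent.PVH
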