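import Pool.Agent.helper77.PV.SpecK

/-!
# Project pv (MP_376aaf_an), block K, row KFV: the five lemma
-/

set_option autoImplicit false

namespace Pool.Agent.PV

open Pool.Agent.CZ Pool.Agent.PVH

theorem KFV (hKSH : KSH_stmt) : KFV_stmt := by
  intro G₀ G S H₀ H P₀ P _ _ _ _ _ _ _ a₀ a jm rm b₀ b jn i₀ i d₀ d F hD hjn hb hF hd hi hi₀ hdi hdi₀
    hbd hbd₀
  obtain ⟨k1, k2, k3, k4⟩ := hKSH G₀ G S a₀ a jm rm hD
  refine ⟨fun z => ?_, fun z₀ s h0 => ?_⟩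
  · have h1 : b (d z) = d z := (hbd (d z)).mpr ⟨z, rfl⟩
    obtain ⟨x, hx1, hx2⟩ := hb (d z) h1
    obtain ⟨z₀, hz₀⟩ := (hbd₀ x).mp hx1
    have h2 : d (z - F z₀) = 0 := by
      rw [map_sub, ← hd, hz₀, hx2, sub_self]
    obtain ⟨w, hw⟩ := (hdi _).mp h2
    obtain ⟨x', s, v, hv⟩ := k3 w
    refine ⟨z₀ + i₀ x', s, ?_⟩
    have h3 : i (v - a v) = 0 := (hi _).mpr ⟨v, rfl⟩
    have h4 : i w = i (jm x') + i (rm 0 s) := by
      rw [hv, map_add, map_add, h3, add_zero]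
    rw [map_add, hF, add_assoc, ← h4, ← hw]
    abel
  · have h1 : d (i (rm 0 s)) = 0 := (hdi _).mpr ⟨rm 0 s, rfl⟩
    have h2 : jn (d₀ z₀) = 0 := by
      have h3 := congrArg d h0
      rw [map_add, h1, add_zero, map_zero, ← hd] at h3
      exact h3
    have h3 : d₀ z₀ = 0 := hjn (by rw [h2, map_zero])
    obtain ⟨w₀, hw₀⟩ := (hdi₀ _).mp h3
    have h4 : i (jm w₀ + rm 0 s) = 0 := by
      rw [map_add, ← hF, ← hw₀, h0]
    obtain ⟨w, hw⟩ := (hi _).mp h4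
    obtain ⟨⟨v, hv⟩, hs⟩ := k2 w₀ s w hw
    refine ⟨?_, hs⟩
    rw [hw₀]
    exact (hi₀ w₀).mpr ⟨v, hv⟩

end Pool.Agent.PV
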